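import Mathlib

/-!
# Rigorous first-order arithmetic with fixed-point complex numbers

An `AD` object describes a complex function on the polydisc of radius `2 ^ (-110)` in `ℂ ^ 18`:
an approximate value at the centre, an approximate gradient, and two error bounds.
-/

namespace Pool.Agent.N832.CF

/-- The parameter space. -/
abbrev X := Fin 18 → ℂ

/-- Fixed-point complex numbers: `⟨a, b, c, d⟩` stands for `((a - b) + (c - d) i) / 2 ^ 192`. -/
structure Cx where
  a : ℕ
  b : ℕ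
  c : ℕ
  d : ℕ

/-- The value of a fixed-point number. -/
noncomputable def toC (x : Cx) : ℂ :=
  ⟨((x.a : ℝ) - x.b) / 2 ^ 192, ((x.c : ℝ) - x.d) / 2 ^ 192⟩

/-- Rounded product. -/
def cmul (x y : Cx) : Cx :=
  match x, y with
  | ⟨a, b, c, d⟩, ⟨e, f, g, h⟩ =>
    let P := Nat.add (Nat.add (Nat.mul a e) (Nat.mul b f)) (Nat.add (Nat.mul c h) (Nat.mul d g))
    let N := Nat.add (Nat.add (Nat.mul a f) (Nat.mul b e)) (Nat.add (Nat.mul c g) (Nat.mul d h))
    let Q := Nat.add (Nat.add (Nat.mul a g) (Nat.mul b h)) (Nat.add (Nat.mul c e) (Nat.mul d f))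
    let M := Nat.add (Nat.add (Nat.mul a h) (Nat.mul b g)) (Nat.add (Nat.mul c f) (Nat.mul d e))
    ⟨Nat.shiftRight (Nat.sub P N) 192, Nat.shiftRight (Nat.sub N P) 192,
      Nat.shiftRight (Nat.sub Q M) 192, Nat.shiftRight (Nat.sub M Q) 192⟩

/-- Sum. -/
def cadd (x y : Cx) : Cx :=
  match x, y with
  | ⟨a, b, c, d⟩, ⟨e, f, g, h⟩ =>
    ⟨Nat.sub (Nat.add a e) (Nat.add b f), Nat.sub (Nat.add b f) (Nat.add a e),
      Nat.sub (Nat.add c g) (Nat.add d h), Nat.sub (Nat.add d h) (Nat.add c g)⟩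

/-- Negation. -/
def cneg (x : Cx) : Cx :=
  match x with
  | ⟨a, b, c, d⟩ => ⟨b, a, d, c⟩

/-- A bound for the absolute value. -/
def n1 (x : Cx) : ℕ :=
  match x with
  | ⟨a, b, c, d⟩ => Nat.add (Nat.add a b) (Nat.add c d)

/-- Product of bounds, rounded up. -/
def mulup (a b : ℕ) : ℕ := Nat.succ (Nat.shiftRight (Nat.mul a b) 192)

lemma shift_floor (m : ℕ) :
    |((Nat.shiftRight m 192 : ℕ) : ℝ) / 2 ^ 192 - (m : ℝ) / 2 ^ 192 / 2 ^ 192| ≤ 1 / 2 ^ 192 := by
  have h1 : Nat.shiftRight m 192 = m / 2 ^ 192 := Nat.shiftRight_eq_div_pow m 192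
  have h2 : m / 2 ^ 192 * 2 ^ 192 ≤ m := Nat.div_mul_le_self m (2 ^ 192)
  have h3 : m < (m / 2 ^ 192 + 1) * 2 ^ 192 := by
    have := Nat.lt_div_mul_add (a := m) (b := 2 ^ 192) (by norm_num)
    linarith
  rw [h1]
  set q : ℕ := m / 2 ^ 192 with hq
  have h2' : (q : ℝ) * 2 ^ 192 ≤ m := by exact_mod_cast h2
  have h3' : (m : ℝ) < (q + 1) * 2 ^ 192 := by exact_mod_cast h3
  rw [← sub_div, abs_div, abs_of_pos (show (0 : ℝ) < 2 ^ 192 by positivity)]
  apply div_le_div_of_nonneg_right _ (by positivity)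
  rw [abs_le]
  constructor
  · have : (m : ℝ) / 2 ^ 192 ≤ q + 1 := by
      rw [div_le_iff₀ (by positivity)]; exact h3'.le
    linarith
  · have : (q : ℝ) ≤ m / 2 ^ 192 := by
      rw [le_div_iff₀ (by positivity)]; exact h2'
    linarith

lemma shift_err (P N : ℕ) :
    |(((Nat.shiftRight (Nat.sub P N) 192 : ℕ) : ℝ) - (Nat.shiftRight (Nat.sub N P) 192 : ℕ))
      / 2 ^ 192 - ((P : ℝ) - N) / 2 ^ 192 / 2 ^ 192| ≤ 1 / 2 ^ 192 := by
  rcases le_total N P with h | h
  · have e1 : Nat.sub N P = 0 := Nat.sub_eq_zero_of_le h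
    have e2 : ((Nat.sub P N : ℕ) : ℝ) = (P : ℝ) - N := Nat.cast_sub h
    have e3 : Nat.shiftRight 0 192 = 0 := by
      have := Nat.shiftRight_eq_div_pow 0 192
      exact this.trans (Nat.zero_div _)
    have := shift_floor (Nat.sub P N)
    rw [e1, e3, ← e2, Nat.cast_zero, sub_zero]
    exact this
  · have e1 : Nat.sub P N = 0 := Nat.sub_eq_zero_of_le h
    have e2 : ((Nat.sub N P : ℕ) : ℝ) = (N : ℝ) - P := Nat.cast_sub h
    have e3 : Nat.shiftRight 0 192 = 0 := by
      have := Nat.shiftRight_eq_div_pow 0 192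
      exact this.trans (Nat.zero_div _)
    have h4 := shift_floor (Nat.sub N P)
    have e5 : (P : ℝ) - N = -((Nat.sub N P : ℕ) : ℝ) := by rw [e2]; ring
    rw [e1, e3, e5, Nat.cast_zero, zero_sub, neg_div, neg_div, neg_div, neg_sub_neg, abs_sub_comm]
    exact h4

lemma toC_cmul (x y : Cx) : ‖toC (cmul x y) - toC x * toC y‖ ≤ 2 / 2 ^ 192 := by
  obtain ⟨a, b, c, d⟩ := x
  obtain ⟨e, f, g, h⟩ := y
  refine (Complex.norm_le_abs_re_add_abs_im _).trans ?_
  have h1 := shift_err (Nat.add (Nat.add (Nat.mul a e) (Nat.mul b f))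
      (Nat.add (Nat.mul c h) (Nat.mul d g)))
    (Nat.add (Nat.add (Nat.mul a f) (Nat.mul b e)) (Nat.add (Nat.mul c g) (Nat.mul d h)))
  have h2 := shift_err (Nat.add (Nat.add (Nat.mul a g) (Nat.mul b h))
      (Nat.add (Nat.mul c e) (Nat.mul d f)))
    (Nat.add (Nat.add (Nat.mul a h) (Nat.mul b g)) (Nat.add (Nat.mul c f) (Nat.mul d e)))
  have g1 : ((Nat.add (Nat.add (Nat.mul a e) (Nat.mul b f)) (Nat.add (Nat.mul c h) (Nat.mul d g))
        : ℕ) : ℝ) = (a * e + b * f) + (c * h + d * g) := by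
    change (((a * e + b * f) + (c * h + d * g) : ℕ) : ℝ) = _
    push_cast; ring
  have g2 : ((Nat.add (Nat.add (Nat.mul a f) (Nat.mul b e)) (Nat.add (Nat.mul c g) (Nat.mul d h))
        : ℕ) : ℝ) = (a * f + b * e) + (c * g + d * h) := by
    change (((a * f + b * e) + (c * g + d * h) : ℕ) : ℝ) = _
    push_cast; ring
  have g3 : ((Nat.add (Nat.add (Nat.mul a g) (Nat.mul b h)) (Nat.add (Nat.mul c e) (Nat.mul d f))
        : ℕ) : ℝ) = (a * g + b * h) + (c * e + d * f) := by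
    change (((a * g + b * h) + (c * e + d * f) : ℕ) : ℝ) = _
    push_cast; ring
  have g4 : ((Nat.add (Nat.add (Nat.mul a h) (Nat.mul b g)) (Nat.add (Nat.mul c f) (Nat.mul d e))
        : ℕ) : ℝ) = (a * h + b * g) + (c * f + d * e) := by
    change (((a * h + b * g) + (c * f + d * e) : ℕ) : ℝ) = _
    push_cast; ring
  have k1 : (toC (cmul ⟨a, b, c, d⟩ ⟨e, f, g, h⟩) - toC ⟨a, b, c, d⟩ * toC ⟨e, f, g, h⟩).re
      = (((Nat.shiftRight (Nat.sub (Nat.add (Nat.add (Nat.mul a e) (Nat.mul b f))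
      (Nat.add (Nat.mul c h) (Nat.mul d g))) (Nat.add (Nat.add (Nat.mul a f) (Nat.mul b e))
      (Nat.add (Nat.mul c g) (Nat.mul d h)))) 192 : ℕ) : ℝ) - (Nat.shiftRight (Nat.sub
      (Nat.add (Nat.add (Nat.mul a f) (Nat.mul b e)) (Nat.add (Nat.mul c g) (Nat.mul d h)))
      (Nat.add (Nat.add (Nat.mul a e) (Nat.mul b f)) (Nat.add (Nat.mul c h) (Nat.mul d g)))) 192
      : ℕ)) / 2 ^ 192
        - (((Nat.add (Nat.add (Nat.mul a e) (Nat.mul b f)) (Nat.add (Nat.mul c h) (Nat.mul d g))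
        : ℕ) : ℝ) - (Nat.add (Nat.add (Nat.mul a f) (Nat.mul b e))
        (Nat.add (Nat.mul c g) (Nat.mul d h)) : ℕ)) / 2 ^ 192 / 2 ^ 192 := by
    rw [g1, g2]
    simp only [toC, cmul, Complex.sub_re, Complex.mul_re]
    ring
  have k2 : (toC (cmul ⟨a, b, c, d⟩ ⟨e, f, g, h⟩) - toC ⟨a, b, c, d⟩ * toC ⟨e, f, g, h⟩).im
      = (((Nat.shiftRight (Nat.sub (Nat.add (Nat.add (Nat.mul a g) (Nat.mul b h))
      (Nat.add (Nat.mul c e) (Nat.mul d f))) (Nat.add (Nat.add (Nat.mul a h) (Nat.mul b g))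
      (Nat.add (Nat.mul c f) (Nat.mul d e)))) 192 : ℕ) : ℝ) - (Nat.shiftRight (Nat.sub
      (Nat.add (Nat.add (Nat.mul a h) (Nat.mul b g)) (Nat.add (Nat.mul c f) (Nat.mul d e)))
      (Nat.add (Nat.add (Nat.mul a g) (Nat.mul b h)) (Nat.add (Nat.mul c e) (Nat.mul d f)))) 192
      : ℕ)) / 2 ^ 192
        - (((Nat.add (Nat.add (Nat.mul a g) (Nat.mul b h)) (Nat.add (Nat.mul c e) (Nat.mul d f))
        : ℕ) : ℝ) - (Nat.add (Nat.add (Nat.mul a h) (Nat.mul b g))
        (Nat.add (Nat.mul c f) (Nat.mul d e)) : ℕ)) / 2 ^ 192 / 2 ^ 192 := by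
    rw [g3, g4]
    simp only [toC, cmul, Complex.sub_im, Complex.mul_im]
    ring
  rw [k1, k2]
  calc _ ≤ 1 / 2 ^ 192 + 1 / 2 ^ 192 := add_le_add h1 h2
    _ = 2 / 2 ^ 192 := by ring

lemma abs_sub_le_add (a b : ℕ) : |(a : ℝ) - b| ≤ a + b := by
  rw [abs_le]; constructor <;> linarith [(Nat.cast_nonneg a : (0 : ℝ) ≤ a),
    (Nat.cast_nonneg b : (0 : ℝ) ≤ b)]

lemma norm_toC (x : Cx) : ‖toC x‖ ≤ (n1 x : ℝ) / 2 ^ 192 := by
  obtain ⟨a, b, c, d⟩ := x
  refine (Complex.norm_le_abs_re_add_abs_im _).trans ?_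
  simp only [toC, n1, abs_div, Nat.abs_ofNat, abs_pow]
  rw [← add_div]
  apply div_le_div_of_nonneg_right _ (by positivity)
  have e : ((Nat.add (Nat.add a b) (Nat.add c d) : ℕ) : ℝ) = (a + b) + (c + d) := by
    change (((a + b) + (c + d) : ℕ) : ℝ) = _
    push_cast; ring
  rw [e]
  exact add_le_add (abs_sub_le_add a b) (abs_sub_le_add c d)

lemma mulup_le (a b : ℕ) : (a : ℝ) / 2 ^ 192 * ((b : ℝ) / 2 ^ 192) ≤ (mulup a b : ℝ) / 2 ^ 192 := by
  have h1 : Nat.shiftRight (Nat.mul a b) 192 = a * b / 2 ^ 192 :=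
    Nat.shiftRight_eq_div_pow (a * b) 192
  have h3 : a * b < (a * b / 2 ^ 192 + 1) * 2 ^ 192 := by
    have := Nat.lt_div_mul_add (a := a * b) (b := 2 ^ 192) (by norm_num)
    linarith
  have h3' : (a : ℝ) * b < ((a * b / 2 ^ 192 : ℕ) + 1) * 2 ^ 192 := by exact_mod_cast h3
  have e : (mulup a b : ℝ) = ((a * b / 2 ^ 192 : ℕ) : ℝ) + 1 := by
    unfold mulup
    rw [h1]
    exact Nat.cast_succ _
  rw [e, div_mul_div_comm, div_le_div_iff₀ (by positivity) (by positivity)]
  have : (0 : ℝ) < 2 ^ 192 := by positivity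
  nlinarith

lemma toC_add (x y : Cx) : toC (cadd x y) = toC x + toC y := by
  obtain ⟨a, b, c, d⟩ := x
  obtain ⟨e, f, g, h⟩ := y
  have key : ∀ p n : ℕ, ((Nat.sub p n : ℕ) : ℝ) - (Nat.sub n p : ℕ) = (p : ℝ) - n := by
    intro p n
    rcases le_total n p with h | h
    · have e1 : Nat.sub n p = 0 := Nat.sub_eq_zero_of_le h
      have e2 : ((Nat.sub p n : ℕ) : ℝ) = (p : ℝ) - n := Nat.cast_sub h
      rw [e1, e2]; simp
    · have e1 : Nat.sub p n = 0 := Nat.sub_eq_zero_of_le h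
      have e2 : ((Nat.sub n p : ℕ) : ℝ) = (n : ℝ) - p := Nat.cast_sub h
      rw [e1, e2]; simp
  have c1 : ∀ m n : ℕ, ((Nat.add m n : ℕ) : ℝ) = (m : ℝ) + n := fun m n => Nat.cast_add m n
  apply Complex.ext
  · simp only [toC, cadd, Complex.add_re, key, c1]; ring
  · simp only [toC, cadd, Complex.add_im, key, c1]; ring

lemma toC_neg (x : Cx) : toC (cneg x) = -toC x := by
  obtain ⟨a, b, c, d⟩ := x
  apply Complex.ext
  · simp only [toC, cneg, Complex.neg_re]; ring
  · simp only [toC, cneg, Complex.neg_im]; ring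

/-- Linear functional attached to a list of coefficients. -/
noncomputable def lin : List Cx → (ℕ → ℂ) → ℂ
  | [], _ => 0
  | a :: t, u => toC a * u 0 + lin t (fun i => u (i + 1))

/-- Sum of coefficient bounds. -/
def l1 : List Cx → ℕ
  | [] => 0
  | a :: t => Nat.add (n1 a) (l1 t)

lemma norm_lin (g : List Cx) : ∀ (u : ℕ → ℂ) (b : ℝ), (∀ i, ‖u i‖ ≤ b) →
    ‖lin g u‖ ≤ (l1 g : ℝ) / 2 ^ 192 * b := by
  induction g with
  | nil => intro u b _; simp [lin, l1]
  | cons a t ih =>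
    intro u b hb
    have h1 := ih (fun i => u (i + 1)) b (fun i => hb _)
    have h2 : ‖toC a * u 0‖ ≤ (n1 a : ℝ) / 2 ^ 192 * b := by
      rw [norm_mul]
      exact mul_le_mul (norm_toC a) (hb 0) (norm_nonneg _) (by positivity)
    calc ‖lin (a :: t) u‖ ≤ ‖toC a * u 0‖ + ‖lin t (fun i => u (i + 1))‖ := norm_add_le _ _
      _ ≤ _ := by
        refine (add_le_add h2 h1).trans (le_of_eq ?_)
        have e : ((l1 (a :: t) : ℕ) : ℝ) = (n1 a : ℝ) + l1 t := Nat.cast_add _ _
        rw [e]; ring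

lemma lin_sub (g : List Cx) : ∀ (u w : ℕ → ℂ), lin g (fun i => u i - w i) = lin g u - lin g w := by
  induction g with
  | nil => intro u w; simp [lin]
  | cons a t ih => intro u w; simp only [lin, ih]; ring

lemma lin_zero (g : List Cx) : lin g (fun _ => 0) = 0 := by
  induction g with
  | nil => simp [lin]
  | cons a t ih => simp [lin, ih]

/-- Sum of coefficient lists. -/
def gadd : List Cx → List Cx → List Cx
  | [], q => q
  | a :: p, [] => a :: p
  | a :: p, b :: q => cadd a b :: gadd p q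

/-- Negation of a coefficient list. -/
def gneg : List Cx → List Cx
  | [] => []
  | a :: p => cneg a :: gneg p

/-- Rounded multiple of a coefficient list. -/
def gscale (c : Cx) : List Cx → List Cx
  | [] => []
  | a :: p => cmul c a :: gscale c p

lemma lin_gadd (p : List Cx) : ∀ (q : List Cx) (u : ℕ → ℂ),
    lin (gadd p q) u = lin p u + lin q u := by
  induction p with
  | nil => intro q u; simp [gadd, lin]
  | cons a t ih =>
    intro q u
    cases q with
    | nil => simp [gadd, lin]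
    | cons b s => simp only [gadd, lin, toC_add, ih]; ring

lemma lin_gneg (p : List Cx) : ∀ (u : ℕ → ℂ), lin (gneg p) u = -lin p u := by
  induction p with
  | nil => intro u; simp [gneg, lin]
  | cons a t ih => intro u; simp only [gneg, lin, toC_neg, ih]; ring

lemma l1_gneg (p : List Cx) : l1 (gneg p) = l1 p := by
  induction p with
  | nil => rfl
  | cons a t ih =>
    have : n1 (cneg a) = n1 a := by
      obtain ⟨a, b, c, d⟩ := a
      change b + a + (d + c) = a + b + (c + d)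
      ring
    simp only [gneg, l1, ih, this]

lemma lin_gscale (c : Cx) (p : List Cx) : ∀ (u : ℕ → ℂ) (b : ℝ), (∀ i, ‖u i‖ ≤ b) →
    ‖lin (gscale c p) u - toC c * lin p u‖ ≤ (2 * p.length : ℝ) / 2 ^ 192 * b := by
  induction p with
  | nil => intro u b _; simp [gscale, lin]
  | cons a t ih =>
    intro u b hb
    have h1 := ih (fun i => u (i + 1)) b (fun i => hb _)
    have h2 : ‖(toC (cmul c a) - toC c * toC a) * u 0‖ ≤ 2 / 2 ^ 192 * b := by
      rw [norm_mul]
      exact mul_le_mul (toC_cmul c a) (hb 0) (norm_nonneg _) (by positivity)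
    have e : lin (gscale c (a :: t)) u - toC c * lin (a :: t) u
        = (toC (cmul c a) - toC c * toC a) * u 0
          + (lin (gscale c t) (fun i => u (i + 1)) - toC c * lin t (fun i => u (i + 1))) := by
      simp only [gscale, lin]; ring
    rw [e]
    refine (norm_add_le _ _).trans ((add_le_add h2 h1).trans (le_of_eq ?_))
    simp only [List.length_cons]; push_cast; ring

/-- Extension by zero. -/
noncomputable def ext (x : X) : ℕ → ℂ := fun i => if h : i < 18 then x ⟨i, h⟩ else 0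

lemma ext_sub (x y : X) : ext (x - y) = fun i => ext x i - ext y i := by
  funext i
  unfold ext
  split <;> simp

lemma norm_ext (x : X) (i : ℕ) : ‖ext x i‖ ≤ ‖x‖ := by
  unfold ext
  split
  · exact norm_le_pi_norm x _
  · simp

/-- First-order data of a function. -/
structure AD where
  v : Cx
  e : ℕ
  g : List Cx
  d : ℕ

/-- The radius is `2 ^ 82 / 2 ^ 192 = 2 ^ (-110)`. -/
def RHO : ℕ := 4835703278458516698824704

lemma RHO_eq : RHO = 2 ^ 82 := by unfold RHO; norm_num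

/-- The data `a` describes the function `f`. -/
def Snd (a : AD) (f : X → ℂ) : Prop :=
  ‖f 0 - toC a.v‖ ≤ (a.e : ℝ) / 2 ^ 192 ∧
  ∀ x y : X, ‖x‖ ≤ (RHO : ℝ) / 2 ^ 192 → ‖y‖ ≤ (RHO : ℝ) / 2 ^ 192 →
    ‖f x - f y - lin a.g (ext (x - y))‖ ≤ (a.d : ℝ) / 2 ^ 192 * ‖x - y‖

/-- Sum of data. -/
def AD.add (a b : AD) : AD :=
  match a, b with
  | ⟨v, e, g, d⟩, ⟨v', e', g', d'⟩ => ⟨cadd v v', Nat.add e e', gadd g g', Nat.add d d'⟩

instance : Add AD := ⟨AD.add⟩

/-- Negative of data. -/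
def AD.neg (a : AD) : AD :=
  match a with
  | ⟨v, e, g, d⟩ => ⟨cneg v, e, gneg g, d⟩

instance : Neg AD := ⟨AD.neg⟩

/-- Bound for the radius of the image. -/
def AD.rad (a : AD) : ℕ :=
  match a with
  | ⟨_, e, g, d⟩ => Nat.add e (mulup (Nat.add (l1 g) d) RHO)

/-- The product of two pieces of data. -/
def AD.mul (a b : AD) : AD :=
  match a, b with
  | ⟨v, e, g, d⟩, ⟨v', e', g', d'⟩ =>
    let m := n1 v
    let m' := n1 v'
    let l := Nat.add (l1 g) d
    let l' := Nat.add (l1 g') d'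
    ⟨cmul v v',
      Nat.add (Nat.add (Nat.add (mulup m e') (mulup m' e)) (mulup e e')) 2,
      gadd (gscale v g') (gscale v' g),
      Nat.add (Nat.add (Nat.add (Nat.add (mulup m d') (mulup (Nat.add e (mulup l RHO)) l'))
        (mulup m' d)) (mulup (Nat.add e' (mulup l' RHO)) l))
        (Nat.mul 2 (Nat.add g.length g'.length))⟩

instance : Mul AD := ⟨AD.mul⟩

lemma add_v (a b : AD) : (a + b).v = cadd a.v b.v := by cases a; cases b; rfl
lemma add_e (a b : AD) : (a + b).e = a.e + b.e := by cases a; cases b; rfl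
lemma add_g (a b : AD) : (a + b).g = gadd a.g b.g := by cases a; cases b; rfl
lemma add_d (a b : AD) : (a + b).d = a.d + b.d := by cases a; cases b; rfl
lemma neg_v (a : AD) : (-a).v = cneg a.v := by cases a; rfl
lemma neg_e (a : AD) : (-a).e = a.e := by cases a; rfl
lemma neg_g (a : AD) : (-a).g = gneg a.g := by cases a; rfl
lemma neg_d (a : AD) : (-a).d = a.d := by cases a; rfl
lemma rad_eq (a : AD) : a.rad = a.e + mulup (l1 a.g + a.d) RHO := by cases a; rfl
lemma mul_v (a b : AD) : (a * b).v = cmul a.v b.v := by cases a; cases b; rfl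
lemma mul_e (a b : AD) :
    (a * b).e = mulup (n1 a.v) b.e + mulup (n1 b.v) a.e + mulup a.e b.e + 2 := by
  cases a; cases b; rfl
lemma mul_g (a b : AD) : (a * b).g = gadd (gscale a.v b.g) (gscale b.v a.g) := by
  cases a; cases b; rfl
lemma mul_d (a b : AD) : (a * b).d = mulup (n1 a.v) b.d + mulup a.rad (l1 b.g + b.d)
    + mulup (n1 b.v) a.d + mulup b.rad (l1 a.g + a.d) + 2 * (a.g.length + b.g.length) := by
  cases a; cases b; rfl

lemma Snd.lip {a : AD} {f : X → ℂ} (h : Snd a f) {x y : X} (hx : ‖x‖ ≤ (RHO : ℝ) / 2 ^ 192)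
    (hy : ‖y‖ ≤ (RHO : ℝ) / 2 ^ 192) :
    ‖f x - f y‖ ≤ ((l1 a.g + a.d : ℕ) : ℝ) / 2 ^ 192 * ‖x - y‖ := by
  have h1 := h.2 x y hx hy
  have h2 := norm_lin a.g (ext (x - y)) ‖x - y‖ (norm_ext _)
  have e : f x - f y = (f x - f y - lin a.g (ext (x - y))) + lin a.g (ext (x - y)) := by ring
  rw [e]
  refine (norm_add_le _ _).trans ((add_le_add h1 h2).trans (le_of_eq ?_))
  push_cast; ring

lemma Snd.near {a : AD} {f : X → ℂ} (h : Snd a f) {x : X} (hx : ‖x‖ ≤ (RHO : ℝ) / 2 ^ 192) :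
    ‖f x - toC a.v‖ ≤ (a.rad : ℝ) / 2 ^ 192 := by
  have h0 : ‖(0 : X)‖ ≤ (RHO : ℝ) / 2 ^ 192 := by simp; positivity
  have h1 := h.lip hx h0
  rw [sub_zero] at h1
  have h2 : ((l1 a.g + a.d : ℕ) : ℝ) / 2 ^ 192 * ‖x‖
      ≤ (mulup (l1 a.g + a.d) RHO : ℝ) / 2 ^ 192 :=
    (mul_le_mul_of_nonneg_left hx (by positivity)).trans (mulup_le _ _)
  have e : f x - toC a.v = (f x - f 0) + (f 0 - toC a.v) := by ring
  rw [e]
  refine (norm_add_le _ _).trans ((add_le_add (h1.trans h2) h.1).trans (le_of_eq ?_))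
  rw [rad_eq]
  push_cast; ring

lemma Snd.add {a b : AD} {f g : X → ℂ} (ha : Snd a f) (hb : Snd b g) : Snd (a + b) (f + g) := by
  constructor
  · rw [add_v, add_e]
    have e : (f + g) 0 - toC (cadd a.v b.v) = (f 0 - toC a.v) + (g 0 - toC b.v) := by
      rw [toC_add, Pi.add_apply]; ring
    rw [e]
    refine (norm_add_le _ _).trans ((add_le_add ha.1 hb.1).trans (le_of_eq ?_))
    push_cast; ring
  · intro x y hx hy
    rw [add_g, add_d]
    have e : (f + g) x - (f + g) y - lin (gadd a.g b.g) (ext (x - y))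
        = (f x - f y - lin a.g (ext (x - y))) + (g x - g y - lin b.g (ext (x - y))) := by
      rw [lin_gadd, Pi.add_apply, Pi.add_apply]; ring
    rw [e]
    refine (norm_add_le _ _).trans ((add_le_add (ha.2 x y hx hy) (hb.2 x y hx hy)).trans
      (le_of_eq ?_))
    push_cast; ring

lemma Snd.neg {a : AD} {f : X → ℂ} (ha : Snd a f) : Snd (-a) (-f) := by
  constructor
  · rw [neg_v, neg_e]
    have e : (-f) 0 - toC (cneg a.v) = -(f 0 - toC a.v) := by
      rw [toC_neg, Pi.neg_apply]; ring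
    rw [e, norm_neg]
    exact ha.1
  · intro x y hx hy
    rw [neg_g, neg_d]
    have e : (-f) x - (-f) y - lin (gneg a.g) (ext (x - y))
        = -(f x - f y - lin a.g (ext (x - y))) := by
      rw [lin_gneg, Pi.neg_apply, Pi.neg_apply]; ring
    rw [e, norm_neg]
    exact ha.2 x y hx hy

lemma Snd.mul {a b : AD} {f g : X → ℂ} (ha : Snd a f) (hb : Snd b g) : Snd (a * b) (f * g) := by
  constructor
  · rw [mul_v, mul_e]
    change ‖f 0 * g 0 - toC (cmul a.v b.v)‖ ≤
      ((mulup (n1 a.v) b.e + mulup (n1 b.v) a.e + mulup a.e b.e + 2 : ℕ) : ℝ) / 2 ^ 192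
    have e : f 0 * g 0 - toC (cmul a.v b.v)
        = toC a.v * (g 0 - toC b.v) + toC b.v * (f 0 - toC a.v)
          + (f 0 - toC a.v) * (g 0 - toC b.v) - (toC (cmul a.v b.v) - toC a.v * toC b.v) := by
      ring
    rw [e]
    have t1 : ‖toC a.v * (g 0 - toC b.v)‖ ≤ (mulup (n1 a.v) b.e : ℝ) / 2 ^ 192 := by
      rw [norm_mul]
      exact (mul_le_mul (norm_toC _) hb.1 (norm_nonneg _) (by positivity)).trans (mulup_le _ _)
    have t2 : ‖toC b.v * (f 0 - toC a.v)‖ ≤ (mulup (n1 b.v) a.e : ℝ) / 2 ^ 192 := by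
      rw [norm_mul]
      exact (mul_le_mul (norm_toC _) ha.1 (norm_nonneg _) (by positivity)).trans (mulup_le _ _)
    have t3 : ‖(f 0 - toC a.v) * (g 0 - toC b.v)‖ ≤ (mulup a.e b.e : ℝ) / 2 ^ 192 := by
      rw [norm_mul]
      exact (mul_le_mul ha.1 hb.1 (norm_nonneg _) (by positivity)).trans (mulup_le _ _)
    have t4 := toC_cmul a.v b.v
    refine (norm_sub_le _ _).trans ?_
    refine (add_le_add ((norm_add₃_le).trans (add_le_add (add_le_add t1 t2) t3)) t4).trans
      (le_of_eq ?_)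
    push_cast; ring
  · intro x y hx hy
    rw [mul_g, mul_d]
    change ‖f x * g x - f y * g y - lin (gadd (gscale a.v b.g) (gscale b.v a.g)) (ext (x - y))‖ ≤
      ((mulup (n1 a.v) b.d + mulup a.rad (l1 b.g + b.d) + mulup (n1 b.v) a.d
     + mulup b.rad (l1 a.g + a.d) + 2 * (a.g.length + b.g.length) : ℕ) : ℝ) / 2 ^ 192 * ‖x - y‖
    rw [lin_gadd]
    set w := ext (x - y) with hw
    have e : f x * g x - f y * g y - (lin (gscale a.v b.g) w + lin (gscale b.v a.g) w)
        = toC a.v * (g x - g y - lin b.g w) + (f x - toC a.v) * (g x - g y)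
          + toC b.v * (f x - f y - lin a.g w) + (g y - toC b.v) * (f x - f y)
          - (lin (gscale a.v b.g) w - toC a.v * lin b.g w)
          - (lin (gscale b.v a.g) w - toC b.v * lin a.g w) := by
      ring
    rw [e]
    have nn : 0 ≤ ‖x - y‖ := norm_nonneg _
    have t1 : ‖toC a.v * (g x - g y - lin b.g w)‖
        ≤ (mulup (n1 a.v) b.d : ℝ) / 2 ^ 192 * ‖x - y‖ := by
      rw [norm_mul]
      refine (mul_le_mul (norm_toC _) (hb.2 x y hx hy) (norm_nonneg _) (by positivity)).trans ?_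
      rw [← mul_assoc]
      exact mul_le_mul_of_nonneg_right (mulup_le _ _) nn
    have t3 : ‖toC b.v * (f x - f y - lin a.g w)‖
        ≤ (mulup (n1 b.v) a.d : ℝ) / 2 ^ 192 * ‖x - y‖ := by
      rw [norm_mul]
      refine (mul_le_mul (norm_toC _) (ha.2 x y hx hy) (norm_nonneg _) (by positivity)).trans ?_
      rw [← mul_assoc]
      exact mul_le_mul_of_nonneg_right (mulup_le _ _) nn
    have t2 : ‖(f x - toC a.v) * (g x - g y)‖
        ≤ (mulup a.rad (l1 b.g + b.d) : ℝ) / 2 ^ 192 * ‖x - y‖ := by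
      rw [norm_mul]
      refine (mul_le_mul (ha.near hx) (hb.lip hx hy) (norm_nonneg _) (by positivity)).trans ?_
      rw [← mul_assoc]
      exact mul_le_mul_of_nonneg_right (mulup_le _ _) nn
    have t4 : ‖(g y - toC b.v) * (f x - f y)‖
        ≤ (mulup b.rad (l1 a.g + a.d) : ℝ) / 2 ^ 192 * ‖x - y‖ := by
      rw [norm_mul]
      refine (mul_le_mul (hb.near hy) (ha.lip hx hy) (norm_nonneg _) (by positivity)).trans ?_
      rw [← mul_assoc]
      exact mul_le_mul_of_nonneg_right (mulup_le _ _) nn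
    have t5 := lin_gscale a.v b.g w ‖x - y‖ (norm_ext _)
    have t6 := lin_gscale b.v a.g w ‖x - y‖ (norm_ext _)
    refine (norm_sub_le _ _).trans ?_
    refine (add_le_add ((norm_sub_le _ _).trans (add_le_add ((norm_add_le _ _).trans
      (add_le_add ((norm_add₃_le).trans (add_le_add (add_le_add t1 t2) t3)) t4)) t5)) t6).trans
      (le_of_eq ?_)
    push_cast; ring

/-- Integer constants. -/
def AD.nat (n : ℕ) : AD :=
  ⟨⟨Nat.mul n 6277101735386680763835789423207666416102355444464034512896, 0, 0, 0⟩, 0, [], 0⟩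

lemma toC_nat (n : ℕ) :
    toC ⟨Nat.mul n 6277101735386680763835789423207666416102355444464034512896, 0, 0, 0⟩
      = (n : ℂ) := by
  have e : ((Nat.mul n 6277101735386680763835789423207666416102355444464034512896 : ℕ) : ℝ)
      = n * 2 ^ 192 := by
    change ((n * 6277101735386680763835789423207666416102355444464034512896 : ℕ) : ℝ) = _
    push_cast
    norm_num
  apply Complex.ext
  · simp only [toC, Complex.natCast_re, e, Nat.cast_zero, sub_zero]
    rw [mul_div_assoc, div_self (by positivity), mul_one]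
  · simp [toC]

lemma Snd.nat (n : ℕ) : Snd (AD.nat n) ((n : X → ℂ)) := by
  constructor
  · change ‖(n : ℂ) - toC ⟨Nat.mul n 6277101735386680763835789423207666416102355444464034512896,
      0, 0, 0⟩‖ ≤ _
    rw [toC_nat]
    simp [AD.nat]
  · intro x y _ _
    change ‖(n : ℂ) - (n : ℂ) - 0‖ ≤ _
    simp [AD.nat]

/-- The constant `1 / 256`. -/
def AD.H : AD :=
  ⟨⟨24519928653854221733733552434404946937899825954937634816, 0, 0, 0⟩, 0, [], 0⟩

lemma Snd.H : Snd AD.H (fun _ => (1 / 256 : ℂ)) := by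
  have h : toC ⟨24519928653854221733733552434404946937899825954937634816, 0, 0, 0⟩
      = 1 / 256 := by
    apply Complex.ext
    · simp only [toC]; norm_num
    · simp [toC]
  constructor
  · change ‖(1 / 256 : ℂ)
      - toC ⟨24519928653854221733733552434404946937899825954937634816, 0, 0, 0⟩‖ ≤ _
    rw [h]
    simp [AD.H]
  · intro x y _ _
    change ‖(1 / 256 : ℂ) - (1 / 256 : ℂ) - 0‖ ≤ _
    simp [AD.H]

/-- The affine function with the given value and gradient. -/
def AD.aff (v : Cx) (g : List Cx) : AD := ⟨v, 0, g, 0⟩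

lemma Snd.aff (v : Cx) (g : List Cx) :
    Snd (AD.aff v g) (fun x => toC v + lin g (ext x)) := by
  constructor
  · have : ext (0 : X) = fun _ => 0 := by
      funext i; unfold ext; split <;> simp
    simp only [this, lin_zero, AD.aff]
    simp
  · intro x y _ _
    have : toC v + lin g (ext x) - (toC v + lin g (ext y)) - lin (AD.aff v g).g (ext (x - y)) = 0 := by
      rw [ext_sub]
      change toC v + lin g (ext x) - (toC v + lin g (ext y))
        - lin g (fun i => ext x i - ext y i) = 0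
      rw [lin_sub]; ring
    rw [this]
    simp [AD.aff]

end Pool.Agent.N832.CF
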