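import Pool.Agent.N832.CF.Sol

/-!
# From the solution of the system to a pair of polynomials
-/

namespace Pool.Agent.N832.CF

open Polynomial

section
variable (m : ℕ) (E O : ℂ[X]) (kap x1 x2 x3 : ℂ)

/-- The polynomial `E (x ^ 2) + x O (x ^ 2)`. -/
noncomputable def PP : ℂ[X] := E.comp (Polynomial.X ^ 2) + Polynomial.X * O.comp (Polynomial.X ^ 2)

/-- The polynomial `E (x ^ 2) - x O (x ^ 2)`. -/
noncomputable def QQ : ℂ[X] := E.comp (Polynomial.X ^ 2) - Polynomial.X * O.comp (Polynomial.X ^ 2)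

noncomputable def Xp : ℂ[X] := (1 + C (1 / 256) * Polynomial.X) ^ (m + 1) * QQ E O

noncomputable def Xm : ℂ[X] := (1 - C (1 / 256) * Polynomial.X) ^ (m + 1) * PP E O

noncomputable def NN : ℂ[X] := C 256 * (Xp m E O - Xm m E O)

noncomputable def DD : ℂ[X] := Xp m E O + Xm m E O

/-- The polynomial identity satisfied by the solution. -/
def Ident : Prop :=
  -(C 1048832 * (E * E - Polynomial.X * (O * O)))
      + (C 65536 - Polynomial.X) * (O * E + C 2 * (Polynomial.X
        * (derivative O * E - derivative E * O)))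
      = (C (x3 * x3) - Polynomial.X) ^ 9 * ((C (x2 * x2) - Polynomial.X) ^ 3
      * ((C (x1 * x1) - Polynomial.X) ^ 2 * C kap))

variable {m E O kap x1 x2 x3}

lemma ident_eval (h : Ident E O kap x1 x2 x3) (v : ℂ) :
    -(1048832 * (E.eval v * E.eval v - v * (O.eval v * O.eval v)))
      + (65536 - v) * (O.eval v * E.eval v + 2 * (v
        * ((derivative O).eval v * E.eval v - (derivative E).eval v * O.eval v)))
      = (x3 * x3 - v) ^ 9 * ((x2 * x2 - v) ^ 3 * ((x1 * x1 - v) ^ 2 * kap)) := by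
  have := congrArg (Polynomial.eval v) h
  simpa only [eval_add, eval_neg, eval_mul, eval_sub, eval_C, eval_X, eval_pow] using this

lemma eval_PP (z : ℂ) : (PP E O).eval z = E.eval (z * z) + z * O.eval (z * z) := by
  simp [PP, eval_comp, sq]

lemma eval_QQ (z : ℂ) : (QQ E O).eval z = E.eval (z * z) - z * O.eval (z * z) := by
  simp [QQ, eval_comp, sq]

lemma eval_dPP (z : ℂ) : (derivative (PP E O)).eval z
    = 2 * z * (derivative E).eval (z * z) + O.eval (z * z)
      + 2 * z * z * (derivative O).eval (z * z) := by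
  simp [PP, eval_comp, derivative_comp, sq]
  ring

lemma eval_dQQ (z : ℂ) : (derivative (QQ E O)).eval z
    = 2 * z * (derivative E).eval (z * z) - O.eval (z * z)
      - 2 * z * z * (derivative O).eval (z * z) := by
  simp [QQ, eval_comp, derivative_comp, sq]
  ring

lemma eval_Xp (z : ℂ) : (Xp m E O).eval z
    = (1 + 1 / 256 * z) ^ m * (1 + 1 / 256 * z) * (E.eval (z * z) - z * O.eval (z * z)) := by
  rw [Xp, eval_mul, eval_QQ, eval_pow, eval_add, eval_mul, eval_C, eval_X, eval_one, pow_succ]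

lemma eval_Xm (z : ℂ) : (Xm m E O).eval z
    = (1 - 1 / 256 * z) ^ m * (1 - 1 / 256 * z) * (E.eval (z * z) + z * O.eval (z * z)) := by
  rw [Xm, eval_mul, eval_PP, eval_pow, eval_sub, eval_mul, eval_C, eval_X, eval_one, pow_succ]

lemma eval_dXp (z : ℂ) : (derivative (Xp m E O)).eval z
    = (1 + 1 / 256 * z) ^ m * (((m : ℂ) + 1) / 256 * (QQ E O).eval z
      + (1 + 1 / 256 * z) * (derivative (QQ E O)).eval z) := by
  rw [Xp, derivative_mul, derivative_pow]
  simp only [derivative_add, derivative_one, derivative_mul, derivative_C, derivative_X, eval_add,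
    eval_mul, eval_pow, eval_C, eval_X, eval_one, eval_zero, add_tsub_cancel_right]
  rw [pow_succ (1 + 1 / 256 * z) m]
  push_cast
  ring

lemma eval_dXm (z : ℂ) : (derivative (Xm m E O)).eval z
    = (1 - 1 / 256 * z) ^ m * (-(((m : ℂ) + 1) / 256 * (PP E O).eval z)
      + (1 - 1 / 256 * z) * (derivative (PP E O)).eval z) := by
  rw [Xm, derivative_mul, derivative_pow]
  simp only [derivative_sub, derivative_one, derivative_mul, derivative_C, derivative_X, eval_add,
    eval_sub, eval_mul, eval_pow, eval_C, eval_X, eval_one, eval_zero, add_tsub_cancel_right]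
  rw [pow_succ (1 - 1 / 256 * z) m]
  push_cast
  ring

/-- The Wronskian of the pair. -/
lemma wronsk (hm : (m : ℂ) = 4096) (h : Ident E O kap x1 x2 x3) (z : ℂ) :
    (derivative (NN m E O)).eval z * (DD m E O).eval z
      - (NN m E O).eval z * (derivative (DD m E O)).eval z
      = -(1 / 64) * ((1 + 1 / 256 * z) ^ m * (1 - 1 / 256 * z) ^ m)
        * ((x3 * x3 - z * z) ^ 9 * ((x2 * x2 - z * z) ^ 3 * ((x1 * x1 - z * z) ^ 2 * kap))) := by
  rw [← ident_eval h (z * z)]
  simp only [NN, DD, derivative_mul, derivative_C, derivative_add, derivative_sub, eval_add,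
    eval_mul, eval_sub, eval_C, zero_mul, zero_add]
  rw [eval_dXp, eval_dXm, eval_Xp, eval_Xm, eval_dPP, eval_dQQ, eval_PP, eval_QQ, hm]
  generalize (1 + 1 / 256 * z) ^ m = R
  generalize (1 - 1 / 256 * z) ^ m = S
  ring

/-- The equation expressing that `x` and `-x` are fixed. -/
def Val (m : ℕ) (E O : ℂ[X]) (x : ℂ) : Prop :=
  (1 - 1 / 256 * x) ^ m * (E.eval (x * x) + x * O.eval (x * x))
      = (1 + 1 / 256 * x) ^ m * (E.eval (x * x) - x * O.eval (x * x)) ∧
    (1 + 1 / 256 * x) ^ m * (E.eval (x * x) - x * O.eval (x * x)) ≠ 0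

lemma Val.ne (hm : m ≠ 0) {x : ℂ} (h : Val m E O x) : x * x - 65536 ≠ 0 := by
  intro h0
  have h1 : (x - 256) * (x + 256) = 0 := by linear_combination h0
  rcases mul_eq_zero.1 h1 with h2 | h2
  · have h3 : (1 - 1 / 256 * x) = 0 := by linear_combination -(1 / 256) * h2
    apply h.2
    rw [← h.1, h3, zero_pow hm, zero_mul]
  · have h3 : (1 + 1 / 256 * x) = 0 := by linear_combination (1 / 256) * h2
    apply h.2
    rw [h3, zero_pow hm, zero_mul]

lemma Val.fixed {x : ℂ} (h : Val m E O x) :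
    (DD m E O).eval x ≠ 0 ∧ (NN m E O).eval x = x * (DD m E O).eval x := by
  obtain ⟨h1, h2⟩ := h
  have eD : (DD m E O).eval x
      = 2 * ((1 + 1 / 256 * x) ^ m * (E.eval (x * x) - x * O.eval (x * x))) := by
    rw [DD, eval_add, eval_Xp, eval_Xm]
    linear_combination (1 - 1 / 256 * x) * h1
  have eN : (NN m E O).eval x
      = 2 * x * ((1 + 1 / 256 * x) ^ m * (E.eval (x * x) - x * O.eval (x * x))) := by
    rw [NN, eval_mul, eval_sub, eval_C, eval_Xp, eval_Xm]
    linear_combination -256 * (1 - 1 / 256 * x) * h1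
  rw [eD, eN]
  exact ⟨mul_ne_zero two_ne_zero h2, by ring⟩

lemma Val.fixed_neg {x : ℂ} (h : Val m E O x) :
    (DD m E O).eval (-x) ≠ 0 ∧ (NN m E O).eval (-x) = -x * (DD m E O).eval (-x) := by
  obtain ⟨h1, h2⟩ := h
  have e1 : -x * -x = x * x := by ring
  have e2 : (1 + 1 / 256 * -x) = (1 - 1 / 256 * x) := by ring
  have e3 : (1 - 1 / 256 * -x) = (1 + 1 / 256 * x) := by ring
  have eD : (DD m E O).eval (-x)
      = 2 * ((1 + 1 / 256 * x) ^ m * (E.eval (x * x) - x * O.eval (x * x))) := by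
    rw [DD, eval_add, eval_Xp, eval_Xm, e1, e2, e3]
    linear_combination (1 - 1 / 256 * x) * h1
  have eN : (NN m E O).eval (-x)
      = -(2 * x * ((1 + 1 / 256 * x) ^ m * (E.eval (x * x) - x * O.eval (x * x)))) := by
    rw [NN, eval_mul, eval_sub, eval_C, eval_Xp, eval_Xm, e1, e2, e3]
    linear_combination 256 * (1 - 1 / 256 * x) * h1
  rw [eD, eN]
  exact ⟨mul_ne_zero two_ne_zero h2, by ring⟩

lemma ne256 (hm : m ≠ 0) (hI : Ident E O kap x1 x2 x3) (hk : kap ≠ 0) (v1 : Val m E O x1)
    (v2 : Val m E O x2) (v3 : Val m E O x3) :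
    E.eval 65536 - 256 * O.eval 65536 ≠ 0 := by
  intro h0
  have h1 := ident_eval hI 65536
  have h2 : (x3 * x3 - 65536) ^ 9 * ((x2 * x2 - 65536) ^ 3 * ((x1 * x1 - 65536) ^ 2 * kap)) ≠ 0 :=
    mul_ne_zero (pow_ne_zero _ (v3.ne hm)) (mul_ne_zero (pow_ne_zero _ (v2.ne hm))
      (mul_ne_zero (pow_ne_zero _ (v1.ne hm)) hk))
  apply h2
  rw [← h1]
  linear_combination -1048832 * (E.eval 65536 + 256 * O.eval 65536) * h0

/-- Every zero of the Wronskian is a fixed point which is not a pole. -/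
theorem crit_fixed (hm : m ≠ 0) (hm' : (m : ℂ) = 4096) (hI : Ident E O kap x1 x2 x3)
    (hk : kap ≠ 0) (v1 : Val m E O x1) (v2 : Val m E O x2) (v3 : Val m E O x3) {z : ℂ}
    (hz : (derivative (NN m E O)).eval z * (DD m E O).eval z
      - (NN m E O).eval z * (derivative (DD m E O)).eval z = 0) :
    (DD m E O).eval z ≠ 0 ∧ (NN m E O).eval z = z * (DD m E O).eval z := by
  have hne := ne256 hm hI hk v1 v2 v3
  rw [wronsk hm' hI] at hz
  have h2 : ((2 : ℂ)) ^ m ≠ 0 := pow_ne_zero _ two_ne_zero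
  have sqcase : ∀ x : ℂ, Val m E O x → x * x - z * z = 0 →
      (DD m E O).eval z ≠ 0 ∧ (NN m E O).eval z = z * (DD m E O).eval z := by
    intro x hx h
    have h1 : (z - x) * (z + x) = 0 := by linear_combination -h
    rcases mul_eq_zero.1 h1 with h3 | h3
    · have : z = x := by linear_combination h3
      rw [this]; exact hx.fixed
    · have : z = -x := by linear_combination h3
      rw [this]; exact hx.fixed_neg
  rcases mul_eq_zero.1 hz with h | h
  · rcases mul_eq_zero.1 h with h | h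
    · norm_num at h
    · rcases mul_eq_zero.1 h with h | h
      · have h3 : 1 + 1 / 256 * z = 0 := pow_eq_zero_iff hm |>.1 h
        have hz : z = -256 := by linear_combination 256 * h3
        subst hz
        have e1 : (-256 : ℂ) * -256 = 65536 := by norm_num
        have e2 : (1 - 1 / 256 * -256 : ℂ) = 2 := by norm_num
        have e3 : (1 + 1 / 256 * -256 : ℂ) = 0 := by norm_num
        have eD : (DD m E O).eval (-256)
            = 2 ^ m * 2 * (E.eval 65536 - 256 * O.eval 65536) := by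
          rw [DD, eval_add, eval_Xp, eval_Xm, e1, e2, e3]; ring
        have eN : (NN m E O).eval (-256)
            = -256 * (2 ^ m * 2 * (E.eval 65536 - 256 * O.eval 65536)) := by
          rw [NN, eval_mul, eval_sub, eval_C, eval_Xp, eval_Xm, e1, e2, e3]; ring
        rw [eD, eN]
        exact ⟨mul_ne_zero (mul_ne_zero h2 two_ne_zero) hne, rfl⟩
      · have h3 : 1 - 1 / 256 * z = 0 := pow_eq_zero_iff hm |>.1 h
        have hz : z = 256 := by linear_combination -256 * h3
        subst hz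
        have e1 : (256 : ℂ) * 256 = 65536 := by norm_num
        have e2 : (1 + 1 / 256 * 256 : ℂ) = 2 := by norm_num
        have e3 : (1 - 1 / 256 * 256 : ℂ) = 0 := by norm_num
        have eD : (DD m E O).eval 256
            = 2 ^ m * 2 * (E.eval 65536 - 256 * O.eval 65536) := by
          rw [DD, eval_add, eval_Xp, eval_Xm, e1, e2, e3]; ring
        have eN : (NN m E O).eval 256
            = 256 * (2 ^ m * 2 * (E.eval 65536 - 256 * O.eval 65536)) := by
          rw [NN, eval_mul, eval_sub, eval_C, eval_Xp, eval_Xm, e1, e2, e3]; ring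
        rw [eD, eN]
        exact ⟨mul_ne_zero (mul_ne_zero h2 two_ne_zero) hne, rfl⟩
  · rcases mul_eq_zero.1 h with h | h
    · exact sqcase x3 v3 (pow_eq_zero_iff (by norm_num) |>.1 h)
    · rcases mul_eq_zero.1 h with h | h
      · exact sqcase x2 v2 (pow_eq_zero_iff (by norm_num) |>.1 h)
      · rcases mul_eq_zero.1 h with h | h
        · exact sqcase x1 v1 (pow_eq_zero_iff (by norm_num) |>.1 h)
        · exact absurd h hk

lemma kap_ne (hI : Ident E O kap x1 x2 x3) (hE : E.coeff 0 = 1)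
    (hO : 65536 * O.coeff 0 ≠ 1048832) : kap ≠ 0 := by
  rintro rfl
  have h := ident_eval hI 0
  rw [← coeff_zero_eq_eval_zero, ← coeff_zero_eq_eval_zero, hE] at h
  apply hO
  linear_combination h

/-- The leading coefficient of `E` does not vanish. -/
lemma E7_ne (hI : Ident E O kap x1 x2 x3) (hk : kap ≠ 0) (hE : E.natDegree ≤ 7)
    (hO : O.natDegree ≤ 6) : E.coeff 7 ≠ 0 := by
  intro h7
  have hE6 : E.natDegree ≤ 6 := by
    rw [natDegree_le_iff_coeff_eq_zero] at hE ⊢
    intro N hN
    rcases Nat.lt_or_ge 7 N with h | h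
    · exact hE N h
    · have : N = 7 := by omega
      rw [this]; exact h7
  have hdE : (derivative E).natDegree ≤ 5 := (natDegree_derivative_le E).trans (by omega)
  have hdO : (derivative O).natDegree ≤ 5 := (natDegree_derivative_le O).trans (by omega)
  have hX : (Polynomial.X : ℂ[X]).natDegree ≤ 1 := natDegree_X_le
  have hR : ((C (x3 * x3) - Polynomial.X) ^ 9 * ((C (x2 * x2) - Polynomial.X) ^ 3
      * ((C (x1 * x1) - Polynomial.X) ^ 2 * C kap))).coeff 14 = kap := by
    have d1 : ∀ a : ℂ, (C a - Polynomial.X : ℂ[X]).natDegree ≤ 1 := fun a =>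
      (natDegree_sub_le _ _).trans (max_le (by rw [natDegree_C]; omega) hX)
    have c1 : ∀ a : ℂ, (C a - Polynomial.X : ℂ[X]).coeff 1 = -1 := fun a => by
      rw [coeff_sub, coeff_X_one, coeff_C]; simp
    have c2 : ∀ (a : ℂ) (n : ℕ), ((C a - Polynomial.X : ℂ[X]) ^ n).coeff n = (-1) ^ n := by
      intro a n
      have := coeff_pow_of_natDegree_le (d1 a) (m := n)
      rw [mul_one, c1] at this
      exact this
    have d2 : ∀ (a : ℂ) (n : ℕ), ((C a - Polynomial.X : ℂ[X]) ^ n).natDegree ≤ n := fun a n =>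
      (natDegree_pow_le).trans (by have := d1 a; nlinarith)
    have d3 : (((C (x1 * x1) - Polynomial.X) ^ 2 * C kap) : ℂ[X]).natDegree ≤ 2 :=
      (natDegree_mul_C_le _ _).trans (d2 _ 2)
    have e3 : (((C (x1 * x1) - Polynomial.X) ^ 2 * C kap) : ℂ[X]).coeff 2 = kap := by
      rw [coeff_mul_C, c2]; ring
    have d4 : ((C (x2 * x2) - Polynomial.X) ^ 3
      * ((C (x1 * x1) - Polynomial.X) ^ 2 * C kap) : ℂ[X]).natDegree ≤ 5 :=
      natDegree_mul_le.trans (Nat.add_le_add (d2 _ 3) d3)
    have e4 : ((C (x2 * x2) - Polynomial.X) ^ 3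
      * ((C (x1 * x1) - Polynomial.X) ^ 2 * C kap) : ℂ[X]).coeff 5 = -kap := by
      have := coeff_mul_add_eq_of_natDegree_le (d2 (x2 * x2) 3) d3
      rw [show 3 + 2 = 5 from rfl] at this
      rw [this, c2, e3]; ring
    have := coeff_mul_add_eq_of_natDegree_le (d2 (x3 * x3) 9) d4
    rw [show 9 + 5 = 14 from rfl] at this
    rw [this, c2, e4]; ring
  have hL : (-(C 1048832 * (E * E - Polynomial.X * (O * O)))
      + (C 65536 - Polynomial.X) * (O * E + C 2 * (Polynomial.X
        * (derivative O * E - derivative E * O)))).natDegree ≤ 13 := by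
    have b1 : (E * E).natDegree ≤ 13 := natDegree_mul_le.trans (by omega)
    have b2 : (Polynomial.X * (O * O)).natDegree ≤ 13 :=
      natDegree_mul_le.trans ((Nat.add_le_add hX natDegree_mul_le).trans (by omega))
    have b3 : (C 1048832 * (E * E - Polynomial.X * (O * O))).natDegree ≤ 13 :=
      (natDegree_C_mul_le _ _).trans ((natDegree_sub_le _ _).trans (max_le b1 b2))
    have b4 : (O * E).natDegree ≤ 12 := natDegree_mul_le.trans (by omega)
    have b5 : (derivative O * E - derivative E * O).natDegree ≤ 11 :=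
      (natDegree_sub_le _ _).trans (max_le (natDegree_mul_le.trans (by omega))
        (natDegree_mul_le.trans (by omega)))
    have b6 : (C 2 * (Polynomial.X * (derivative O * E - derivative E * O))).natDegree ≤ 12 :=
      (natDegree_C_mul_le _ _).trans (natDegree_mul_le.trans (by omega))
    have b7 : (O * E + C 2 * (Polynomial.X
        * (derivative O * E - derivative E * O))).natDegree ≤ 12 :=
      (natDegree_add_le _ _).trans (max_le b4 b6)
    have b8 : (C 65536 - Polynomial.X : ℂ[X]).natDegree ≤ 1 :=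
      (natDegree_sub_le _ _).trans (max_le (by rw [natDegree_C]; omega) hX)
    refine (natDegree_add_le _ _).trans (max_le ?_ ?_)
    · rw [natDegree_neg]; exact b3
    · exact natDegree_mul_le.trans (by omega)
  have h14 := congrArg (fun p => Polynomial.coeff p 14) hI
  simp only [hR] at h14
  rw [coeff_eq_zero_of_natDegree_lt (by omega)] at h14
  exact hk h14.symm

lemma deg_QQ (hE : E.natDegree ≤ 7) (hO : O.natDegree ≤ 6) :
    (QQ E O).natDegree ≤ 14 ∧ (PP E O).natDegree ≤ 14 ∧
      (QQ E O).coeff 14 = E.coeff 7 ∧ (PP E O).coeff 14 = E.coeff 7 := by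
  have hX2 : (Polynomial.X ^ 2 : ℂ[X]).natDegree ≤ 2 := natDegree_X_pow_le 2
  have h1 : (E.comp (Polynomial.X ^ 2)).natDegree ≤ 14 :=
    natDegree_comp_le.trans (by nlinarith)
  have h2 : (Polynomial.X * O.comp (Polynomial.X ^ 2)).natDegree ≤ 13 :=
    natDegree_mul_le.trans (by
      have : (O.comp (Polynomial.X ^ 2)).natDegree ≤ 12 := natDegree_comp_le.trans (by nlinarith)
      have := natDegree_X_le (R := ℂ)
      omega)
  have h3 : (Polynomial.X * O.comp (Polynomial.X ^ 2)).coeff 14 = 0 :=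
    coeff_eq_zero_of_natDegree_lt (by omega)
  have h4 : (E.comp (Polynomial.X ^ 2)).coeff 14 = E.coeff 7 := by
    have := coeff_expand_mul (p := 2) (by norm_num) E 7
    rw [expand_eq_comp_X_pow] at this
    exact this
  refine ⟨?_, ?_, ?_, ?_⟩
  · exact (natDegree_sub_le _ _).trans (max_le h1 (h2.trans (by norm_num)))
  · exact (natDegree_add_le _ _).trans (max_le h1 (h2.trans (by norm_num)))
  · rw [QQ, coeff_sub, h3, h4, sub_zero]
  · rw [PP, coeff_add, h3, h4, add_zero]

/-- Degrees of the numerator and the denominator, for even `m`. -/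
lemma degs (hm : Even m) (hE : E.natDegree ≤ 7) (hO : O.natDegree ≤ 6) (h7 : E.coeff 7 ≠ 0) :
    (NN m E O).natDegree = m + 15 ∧ (DD m E O).natDegree ≤ m + 15 ∧
      (DD m E O).coeff (m + 15) = 0 := by
  obtain ⟨dQ, dP, cQ, cP⟩ := deg_QQ hE hO
  have hX : (Polynomial.X : ℂ[X]).natDegree ≤ 1 := natDegree_X_le
  have hl : (C (1 / 256) * Polynomial.X : ℂ[X]).natDegree ≤ 1 :=
    (natDegree_C_mul_le _ _).trans hX
  have a1 : (1 + C (1 / 256) * Polynomial.X : ℂ[X]).natDegree ≤ 1 :=
    (natDegree_add_le _ _).trans (max_le (by rw [natDegree_one]; omega) hl)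
  have a2 : (1 - C (1 / 256) * Polynomial.X : ℂ[X]).natDegree ≤ 1 :=
    (natDegree_sub_le _ _).trans (max_le (by rw [natDegree_one]; omega) hl)
  have c1 : (1 + C (1 / 256) * Polynomial.X : ℂ[X]).coeff 1 = 1 / 256 := by
    rw [coeff_add, coeff_C_mul, coeff_X_one, coeff_one]; simp
  have c2 : (1 - C (1 / 256) * Polynomial.X : ℂ[X]).coeff 1 = -(1 / 256) := by
    rw [coeff_sub, coeff_C_mul, coeff_X_one, coeff_one]; simp
  have p1 : ((1 + C (1 / 256) * Polynomial.X : ℂ[X]) ^ (m + 1)).natDegree ≤ m + 1 :=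
    natDegree_pow_le.trans (by nlinarith)
  have p2 : ((1 - C (1 / 256) * Polynomial.X : ℂ[X]) ^ (m + 1)).natDegree ≤ m + 1 :=
    natDegree_pow_le.trans (by nlinarith)
  have q1 : ((1 + C (1 / 256) * Polynomial.X : ℂ[X]) ^ (m + 1)).coeff (m + 1)
      = (1 / 256) ^ (m + 1) := by
    have := coeff_pow_of_natDegree_le a1 (m := m + 1)
    rw [mul_one, c1] at this
    exact this
  have q2 : ((1 - C (1 / 256) * Polynomial.X : ℂ[X]) ^ (m + 1)).coeff (m + 1)
      = -(1 / 256) ^ (m + 1) := by
    have := coeff_pow_of_natDegree_le a2 (m := m + 1)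
    rw [mul_one, c2, Odd.neg_pow (Even.add_one hm)] at this
    exact this
  have dXp : (Xp m E O).natDegree ≤ m + 15 := natDegree_mul_le.trans (by omega)
  have dXm : (Xm m E O).natDegree ≤ m + 15 := natDegree_mul_le.trans (by omega)
  have cXp : (Xp m E O).coeff (m + 15) = (1 / 256) ^ (m + 1) * E.coeff 7 := by
    have := coeff_mul_add_eq_of_natDegree_le p1 dQ
    rw [show m + 1 + 14 = m + 15 by ring] at this
    rw [Xp, this, q1, cQ]
  have cXm : (Xm m E O).coeff (m + 15) = -((1 / 256) ^ (m + 1) * E.coeff 7) := by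
    have := coeff_mul_add_eq_of_natDegree_le p2 dP
    rw [show m + 1 + 14 = m + 15 by ring] at this
    rw [Xm, this, q2, cP]; ring
  have cN : (NN m E O).coeff (m + 15) = 512 * ((1 / 256) ^ (m + 1) * E.coeff 7) := by
    rw [NN, coeff_C_mul, coeff_sub, cXp, cXm]; ring
  have dN : (NN m E O).natDegree ≤ m + 15 :=
    (natDegree_C_mul_le _ _).trans ((natDegree_sub_le _ _).trans (max_le dXp dXm))
  refine ⟨natDegree_eq_of_le_of_coeff_ne_zero dN ?_, ?_, ?_⟩
  · rw [cN]
    exact mul_ne_zero (by norm_num) (mul_ne_zero (pow_ne_zero _ (by norm_num)) h7)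
  · exact (natDegree_add_le _ _).trans (max_le dXp dXm)
  · rw [DD, coeff_add, cXp, cXm]; ring

/-- Values at the origin. -/
lemma at_zero (hm : (m : ℂ) = 4096) (hE : E.coeff 0 = 1) :
    (DD m E O).eval 0 = 2 ∧ (NN m E O).eval 0 = 0 ∧
      (derivative (NN m E O)).eval 0 = 2 * (4097 - 256 * O.coeff 0) := by
  have e0 : E.eval 0 = 1 := by rw [← coeff_zero_eq_eval_zero, hE]
  refine ⟨?_, ?_, ?_⟩
  · rw [DD, eval_add, eval_Xp, eval_Xm]
    simp [e0]
    norm_num
  · rw [NN, eval_mul, eval_sub, eval_C, eval_Xp, eval_Xm]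
    simp [e0]
  · simp only [NN, derivative_mul, derivative_C, derivative_sub, eval_add,
      eval_mul, eval_sub, eval_C, zero_mul, zero_add, eval_zero]
    rw [eval_dXp, eval_dXm, eval_dPP, eval_dQQ, eval_PP, eval_QQ, hm]
    have e1 : (1 + 1 / 256 * (0 : ℂ)) = 1 := by ring
    have e2 : (1 - 1 / 256 * (0 : ℂ)) = 1 := by ring
    rw [e1, e2, one_pow]
    simp only [mul_zero, zero_mul, e0, coeff_zero_eq_eval_zero]
    ring

end

end Pool.Agent.N832.CF
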