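import Mathlib

/-!
# Rational maps of the Riemann sphere

The Riemann sphere is `OnePoint ℂ`, and a rational map is given by a pair of coprime polynomials.
-/

namespace Pool.Agent.N832.CF

open Polynomial OnePoint

/-- A rational map of the Riemann sphere, written as a fraction of two coprime complex
polynomials. -/
structure RatMap where
  /-- the numerator -/
  num : ℂ[X]
  /-- the denominator -/
  den : ℂ[X]
  /-- the fraction is in lowest terms -/
  coprime : IsCoprime num den

namespace RatMap

/-- The degree of a rational map: the larger of the degrees of its numerator and denominator. -/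
noncomputable def degree (f : RatMap) : ℕ := max f.num.natDegree f.den.natDegree

/-- The self-map of the Riemann sphere `OnePoint ℂ = ℂ ∪ {∞}` given by `num / den`. A point `z` of
`ℂ` goes to `num z / den z`, which is `∞` when `den z = 0`; the point `∞` goes to the quotient of
the coefficients of degree `d` of `num` and `den`, where `d` is the degree of the map, and this is
`∞` when the coefficient of `den` is zero. -/
noncomputable def map (f : RatMap) : OnePoint ℂ → OnePoint ℂ
  | OnePoint.infty => if f.den.coeff f.degree = 0 then OnePoint.infty
      else OnePoint.some (f.num.coeff f.degree / f.den.coeff f.degree)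
  | OnePoint.some z => if f.den.eval z = 0 then OnePoint.infty
      else OnePoint.some (f.num.eval z / f.den.eval z)

/-- The standard parametrisation of the sphere near the point `a`, by a parameter `t` near `0`:
`t ↦ a + t` when `a` lies in `ℂ`, and `t ↦ 1 / t` when `a = ∞`. -/
noncomputable def param : OnePoint ℂ → ℂ → OnePoint ℂ
  | OnePoint.infty, t => if t = 0 then OnePoint.infty else OnePoint.some t⁻¹
  | OnePoint.some a, t => OnePoint.some (a + t)

/-- The standard coordinate on the sphere near the point `b`, inverse to `param b`: it is
`w ↦ w - b` when `b` lies in `ℂ`, and `w ↦ 1 / w` (with `∞ ↦ 0`) when `b = ∞`. -/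
noncomputable def coord : OnePoint ℂ → OnePoint ℂ → ℂ
  | OnePoint.infty, OnePoint.infty => 0
  | OnePoint.infty, OnePoint.some w => w⁻¹
  | OnePoint.some _, OnePoint.infty => 0
  | OnePoint.some b, OnePoint.some w => w - b

/-- The derivative of `f` at the point `a` of the sphere, computed in the standard coordinates
centred at `a` and at `f a`. At a fixed point of `f` this is the multiplier. -/
noncomputable def localDeriv (f : RatMap) (a : OnePoint ℂ) : ℂ :=
  deriv (fun t => coord (f.map a) (f.map (param a t))) 0

/-- A critical point is a point of the sphere at which the derivative vanishes. -/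
def IsCritical (f : RatMap) (a : OnePoint ℂ) : Prop := f.localDeriv a = 0

/-- A rational map is critically fixed when each critical point is a fixed point. -/
def CriticallyFixed (f : RatMap) : Prop := ∀ a : OnePoint ℂ, f.IsCritical a → f.map a = a

/-- The set of the multipliers of `f` at its fixed points, other than `0` and `1`. -/
def multiplierSet (f : RatMap) : Set ℂ :=
  {μ | μ ≠ 0 ∧ μ ≠ 1 ∧ ∃ p : OnePoint ℂ, f.map p = p ∧ f.localDeriv p = μ}

variable {f : RatMap}

lemma map_infty_of (h : f.den.coeff f.degree = 0) : f.map OnePoint.infty = OnePoint.infty :=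
  if_pos h

lemma map_some_of {a : ℂ} (h : f.den.eval a ≠ 0) :
    f.map (OnePoint.some a) = OnePoint.some (f.num.eval a / f.den.eval a) := if_neg h

lemma map_some_pole {a : ℂ} (h : f.den.eval a = 0) :
    f.map (OnePoint.some a) = OnePoint.infty := if_pos h

/-- The derivative at a finite point which is not a pole. -/
lemma localDeriv_of {a : ℂ} (h : f.den.eval a ≠ 0) :
    f.localDeriv (OnePoint.some a) = ((derivative f.num).eval a * f.den.eval a
      - f.num.eval a * (derivative f.den).eval a) / (f.den.eval a) ^ 2 := by
  rw [localDeriv, map_some_of h]
  have h0 : f.den.eval (a + 0) ≠ 0 := by rwa [add_zero]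
  have hN : HasDerivAt (fun t : ℂ => f.num.eval (a + t)) ((derivative f.num).eval a) 0 := by
    have := (f.num.hasDerivAt (a + 0)).comp_const_add a 0
    rwa [add_zero] at this
  have hD : HasDerivAt (fun t : ℂ => f.den.eval (a + t)) ((derivative f.den).eval a) 0 := by
    have := (f.den.hasDerivAt (a + 0)).comp_const_add a 0
    rwa [add_zero] at this
  have key : HasDerivAt (fun t : ℂ => f.num.eval (a + t) / f.den.eval (a + t)
      - f.num.eval a / f.den.eval a) (((derivative f.num).eval a * f.den.eval a
      - f.num.eval a * (derivative f.den).eval a) / (f.den.eval a) ^ 2) 0 := by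
    have := (hN.div hD h0).sub_const (f.num.eval a / f.den.eval a)
    simp only [add_zero] at this
    exact this
  refine (key.congr_of_eventuallyEq ?_).deriv
  have hev : ∀ᶠ t in nhds (0 : ℂ), f.den.eval (a + t) ≠ 0 :=
    hD.continuousAt.eventually_ne h0
  filter_upwards [hev] with t ht
  change coord _ (f.map (OnePoint.some (a + t))) = _
  rw [map_some_of ht]
  rfl

/-- The derivative at a pole. -/
lemma localDeriv_pole {a : ℂ} (h : f.den.eval a = 0) (hn : f.num.eval a ≠ 0) :
    f.localDeriv (OnePoint.some a) = ((derivative f.den).eval a * f.num.eval a
      - f.den.eval a * (derivative f.num).eval a) / (f.num.eval a) ^ 2 := by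
  rw [localDeriv, map_some_pole h]
  have h0 : f.num.eval (a + 0) ≠ 0 := by rwa [add_zero]
  have hN : HasDerivAt (fun t : ℂ => f.num.eval (a + t)) ((derivative f.num).eval a) 0 := by
    have := (f.num.hasDerivAt (a + 0)).comp_const_add a 0
    rwa [add_zero] at this
  have hD : HasDerivAt (fun t : ℂ => f.den.eval (a + t)) ((derivative f.den).eval a) 0 := by
    have := (f.den.hasDerivAt (a + 0)).comp_const_add a 0
    rwa [add_zero] at this
  have key : HasDerivAt (fun t : ℂ => f.den.eval (a + t) / f.num.eval (a + t))
      (((derivative f.den).eval a * f.num.eval a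
      - f.den.eval a * (derivative f.num).eval a) / (f.num.eval a) ^ 2) 0 := by
    have := hD.div hN h0
    simp only [add_zero] at this
    exact this
  refine (key.congr_of_eventuallyEq (Filter.Eventually.of_forall fun t => ?_)).deriv
  change coord OnePoint.infty (f.map (OnePoint.some (a + t)))
    = f.den.eval (a + t) / f.num.eval (a + t)
  by_cases ht : f.den.eval (a + t) = 0
  · rw [map_some_pole ht, ht, zero_div]
    rfl
  · rw [map_some_of ht]
    change (f.num.eval (a + t) / f.den.eval (a + t))⁻¹ = _
    rw [inv_div]

end RatMap

end Pool.Agent.N832.CF
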