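import Pool.Agent.N832.CF.Sys

/-!
# Existence of a common zero from approximate first-order data
-/

namespace Pool.Agent.N832.CF

/-- Minus the `m`-th unit vector. -/
def unitNeg : ℕ → List Cx
  | 0 => [⟨0, 6277101735386680763835789423207666416102355444464034512896, 0, 0⟩]
  | m + 1 => ⟨0, 0, 0, 0⟩ :: unitNeg m

lemma lin_unitNeg (m : ℕ) : ∀ u : ℕ → ℂ, lin (unitNeg m) u = -u m := by
  induction m with
  | zero =>
    intro u
    have h : toC ⟨0, 6277101735386680763835789423207666416102355444464034512896, 0, 0⟩ = -1 := by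
      apply Complex.ext
      · simp only [toC]; norm_num
      · simp [toC]
    simp only [unitNeg, lin, h]
    ring
  | succ m ih =>
    intro u
    have h : toC ⟨0, 0, 0, 0⟩ = 0 := by
      apply Complex.ext <;> simp [toC]
    simp only [unitNeg, lin, h, ih]
    ring

/-- The numerical test for the `m`-th equation. -/
def okEq (m : ℕ) (a : AD) : Bool :=
  Nat.ble (Nat.add (l1 (gadd a.g (unitNeg m))) a.d)
    3138550867693340381917894711603833208051177722232017256448 &&
  Nat.ble (Nat.add (n1 a.v) a.e) 2417851639229258349412352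

/-- The numerical test for a list of equations. -/
def okAll : ℕ → List AD → Bool
  | _, [] => true
  | m, a :: t => okEq m a && okAll (m + 1) t

lemma okEq_spec {m : ℕ} (hm : m < 18) {a : AD} {f : X → ℂ} (h : Snd a f) (hok : okEq m a = true)
    {x y : X} (hx : ‖x‖ ≤ (RHO : ℝ) / 2 ^ 192) (hy : ‖y‖ ≤ (RHO : ℝ) / 2 ^ 192) :
    ‖(x ⟨m, hm⟩ - f x) - (y ⟨m, hm⟩ - f y)‖ ≤ 1 / 2 * ‖x - y‖ ∧
      ‖f 0‖ ≤ (RHO : ℝ) / 2 ^ 192 / 2 := by
  unfold okEq at hok
  rw [Bool.and_eq_true] at hok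
  obtain ⟨h1, h2⟩ := hok
  have h1 : l1 (gadd a.g (unitNeg m)) + a.d ≤ 2 ^ 191 :=
    (Nat.le_of_ble_eq_true h1).trans (by norm_num)
  have h2 : n1 a.v + a.e ≤ 2 ^ 81 := (Nat.le_of_ble_eq_true h2).trans (by norm_num)
  constructor
  · have e : (x ⟨m, hm⟩ - f x) - (y ⟨m, hm⟩ - f y)
        = -(lin (gadd a.g (unitNeg m)) (ext (x - y)))
          - (f x - f y - lin a.g (ext (x - y))) := by
      rw [lin_gadd, lin_unitNeg]
      have : ext (x - y) m = x ⟨m, hm⟩ - y ⟨m, hm⟩ := by
        unfold ext; simp [hm]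
      rw [this]; ring
    rw [e]
    refine (norm_sub_le _ _).trans ?_
    rw [norm_neg]
    have t1 := norm_lin (gadd a.g (unitNeg m)) (ext (x - y)) ‖x - y‖ (norm_ext _)
    have t2 := h.2 x y hx hy
    refine (add_le_add t1 t2).trans ?_
    rw [← add_mul, ← add_div]
    apply mul_le_mul_of_nonneg_right _ (norm_nonneg _)
    have h1' : ((l1 (gadd a.g (unitNeg m)) : ℝ) + a.d) ≤ 2 ^ 191 := by exact_mod_cast h1
    rw [div_le_iff₀ (by positivity)]
    calc _ ≤ (2 : ℝ) ^ 191 := h1'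
      _ = 1 / 2 * 2 ^ 192 := by norm_num
  · have e : f 0 = (f 0 - toC a.v) + toC a.v := by ring
    rw [e]
    refine (norm_add_le _ _).trans ((add_le_add h.1 (norm_toC a.v)).trans ?_)
    rw [← add_div]
    have h2' : (a.e : ℝ) + n1 a.v ≤ 2 ^ 81 := by
      have : ((n1 a.v + a.e : ℕ) : ℝ) ≤ ((2 ^ 81 : ℕ) : ℝ) := by exact_mod_cast h2
      push_cast at this; linarith
    have hR : (RHO : ℝ) = 2 ^ 82 := by rw [RHO_eq]; norm_num
    rw [hR]
    calc ((a.e : ℝ) + n1 a.v) / 2 ^ 192 ≤ 2 ^ 81 / 2 ^ 192 :=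
          div_le_div_of_nonneg_right h2' (by positivity)
      _ = 2 ^ 82 / 2 ^ 192 / 2 := by norm_num

theorem exists_zero (F : Fin 18 → X → ℂ) (h : ∀ m : Fin 18, ∃ a, Snd a (F m) ∧ okEq m a = true) :
    ∃ η : X, ‖η‖ ≤ (RHO : ℝ) / 2 ^ 192 ∧ ∀ m, F m η = 0 := by
  set ρ : ℝ := (RHO : ℝ) / 2 ^ 192 with hρ
  have hρ0 : 0 ≤ ρ := by positivity
  let T : X → X := fun η m => η m - F m η
  let s : Set X := Metric.closedBall 0 ρ
  have hs : ∀ x, x ∈ s ↔ ‖x‖ ≤ ρ := fun x => by simp [s]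
  have hlip : ∀ x ∈ s, ∀ y ∈ s, ‖T x - T y‖ ≤ 1 / 2 * ‖x - y‖ := by
    intro x hx y hy
    rw [pi_norm_le_iff_of_nonneg (by positivity)]
    intro m
    obtain ⟨a, ha, hok⟩ := h m
    exact (okEq_spec m.2 ha hok ((hs x).1 hx) ((hs y).1 hy)).1
  have h0 : (0 : X) ∈ s := by rw [hs]; simpa using hρ0
  have hT0 : ‖T 0‖ ≤ ρ / 2 := by
    rw [pi_norm_le_iff_of_nonneg (by positivity)]
    intro m
    obtain ⟨a, ha, hok⟩ := h m
    have := (okEq_spec m.2 ha hok ((hs 0).1 h0) ((hs 0).1 h0)).2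
    have e : T 0 m = -(F m 0) := by simp [T]
    rw [e, norm_neg]
    exact this
  have hmaps : Set.MapsTo T s s := by
    intro x hx
    rw [hs]
    have h1 := hlip x hx 0 h0
    rw [sub_zero] at h1
    have h2 := (hs x).1 hx
    have e : T x = (T x - T 0) + T 0 := by abel
    rw [e]
    refine (norm_add_le _ _).trans ?_
    linarith
  have hcomp : IsComplete s := Metric.isClosed_closedBall.isComplete
  have hK : ContractingWith (1 / 2 : NNReal) (hmaps.restrict T s s) := by
    constructor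
    · rw [← NNReal.coe_lt_coe]; norm_num
    · apply LipschitzWith.of_dist_le_mul
      intro x y
      have := hlip x x.2 y y.2
      rw [Subtype.dist_eq, Subtype.dist_eq, dist_eq_norm, dist_eq_norm]
      simpa using this
  obtain ⟨η, hη, hfix, -⟩ := hK.exists_fixedPoint' hcomp hmaps h0 (edist_ne_top _ _)
  refine ⟨η, (hs η).1 hη, fun m => ?_⟩
  have : T η m = η m := congrFun hfix m
  simpa [T] using this

lemma forall_of_RL : ∀ (es : List AD) (fs : List (X → ℂ)) (k : ℕ), RL es fs → okAll k es = true →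
    ∀ (i : ℕ) (f : X → ℂ), fs[i]? = some f → ∃ a, Snd a f ∧ okEq (k + i) a = true := by
  intro es
  induction es with
  | nil =>
    intro fs k h _ i f hf
    cases h
    simp at hf
  | cons a t ih =>
    intro fs k h hok i f hf
    cases h with
    | cons ha ht =>
      simp only [okAll, Bool.and_eq_true] at hok
      cases i with
      | zero =>
        simp only [List.getElem?_cons_zero, Option.some.injEq] at hf
        subst hf
        exact ⟨a, ha, by simpa using hok.1⟩
      | succ i =>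
        simp only [List.getElem?_cons_succ] at hf
        obtain ⟨b, hb, hb'⟩ := ih _ (k + 1) ht hok.2 i f hf
        exact ⟨b, hb, by rw [show k + (i + 1) = k + 1 + i by ring]; exact hb'⟩

/-- Existence of a common zero of a list of 18 functions. -/
theorem exists_zero_list (es : List AD) (fs : List (X → ℂ)) (h : RL es fs)
    (hlen : fs.length = 18) (hok : okAll 0 es = true) :
    ∃ η : X, ‖η‖ ≤ (RHO : ℝ) / 2 ^ 192 ∧ ∀ f ∈ fs, f η = 0 := by
  obtain ⟨η, h1, h2⟩ := exists_zero (fun m => fs[(m : ℕ)]'(by rw [hlen]; exact m.2)) (fun m => by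
    have := forall_of_RL es fs 0 h hok m (fs[(m : ℕ)]'(by rw [hlen]; exact m.2)) (by simp)
    simpa using this)
  refine ⟨η, h1, fun f hf => ?_⟩
  obtain ⟨i, hi, rfl⟩ := List.getElem_of_mem hf
  exact h2 ⟨i, by rw [hlen] at hi; exact hi⟩

end Pool.Agent.N832.CF
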