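import Pool.Agent.N832.CF.Exist

/-!
# Evaluation in stages

All the functions `force…` below satisfy `force x k = k x`; they only serve to have intermediate
results computed once.
-/

namespace Pool.Agent.N832.CF

section
variable {β : Type}

def fN (n : ℕ) (k : ℕ → β) : β :=
  match n with
  | 0 => k 0
  | m + 1 => k (Nat.succ m)

lemma fN_eq (n : ℕ) (k : ℕ → β) : fN n k = k n := by
  cases n <;> rfl

def fC (x : Cx) (k : Cx → β) : β :=
  match x with
  | ⟨a, b, c, d⟩ => fN a fun a => fN b fun b => fN c fun c => fN d fun d => k ⟨a, b, c, d⟩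

lemma fC_eq (x : Cx) (k : Cx → β) : fC x k = k x := by
  cases x
  simp only [fC, fN_eq]

def fG : List Cx → (List Cx → β) → β
  | [], k => k []
  | a :: t, k => fC a (fun b => fG t (fun s => k (b :: s)))

lemma fG_eq (l : List Cx) : ∀ k : List Cx → β, fG l k = k l := by
  induction l with
  | nil => intro k; rfl
  | cons a t ih => intro k; rw [fG, fC_eq, ih]

def fA (a : AD) (k : AD → β) : β :=
  match a with
  | ⟨v, e, g, d⟩ => fC v (fun v => fN e (fun e => fG g (fun g => fN d (fun d => k ⟨v, e, g, d⟩))))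

lemma fA_eq (a : AD) (k : AD → β) : fA a k = k a := by
  cases a
  simp only [fA, fC_eq, fN_eq, fG_eq]

def fL : List AD → (List AD → β) → β
  | [], k => k []
  | a :: t, k => fA a (fun b => fL t (fun s => k (b :: s)))

lemma fL_eq (l : List AD) : ∀ k : List AD → β, fL l k = k l := by
  induction l with
  | nil => intro k; rfl
  | cons a t ih => intro k; rw [fL, fA_eq, ih]

def pmulF (z : AD) : List AD → List AD → (List AD → β) → β
  | [], _, k => k []
  | a :: p, q, k => pmulF z p q (fun r => fL (pscale a q) (fun s => fL (padd s (z :: r)) k))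

lemma pmulF_eq (z : AD) (p q : List AD) : ∀ k : List AD → β,
    pmulF z p q k = k (pmul z p q) := by
  induction p with
  | nil => intro k; rfl
  | cons a t ih => intro k; rw [pmulF, ih, fL_eq, fL_eq, pmul]

def facF (z y : AD) : ℕ → List AD → (List AD → β) → β
  | 0, p, k => k p
  | n + 1, p, k => fL (pscale y p) (fun q => fL (padd q (pneg (z :: p))) (fun r => facF z y n r k))

lemma facF_eq (z y : AD) (n : ℕ) : ∀ (p : List AD) (k : List AD → β),
    facF z y n p k = k (fac z y n p) := by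
  induction n with
  | zero => intro p k; rfl
  | succ n ih => intro p k; rw [facF, fL_eq, fL_eq, ih, fac]

def sqsF : ℕ → AD → (AD → β) → β
  | 0, x, k => k x
  | n + 1, x, k => fA (x * x) (fun y => sqsF n y k)

lemma sqsF_eq (n : ℕ) : ∀ (x : AD) (k : AD → β), sqsF n x k = k (sqs n x) := by
  induction n with
  | zero => intro x k; rfl
  | succ n ih => intro x k; rw [sqsF, fA_eq, ih, sqs]

def evalpF (z x : AD) : List AD → (AD → β) → β
  | [], k => k z
  | a :: p, k => evalpF z x p (fun r => fA (x * r) (fun s => fA (a + s) k))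

lemma evalpF_eq (z x : AD) (p : List AD) : ∀ k : AD → β, evalpF z x p k = k (evalp z x p) := by
  induction p with
  | nil => intro k; rfl
  | cons a t ih => intro k; rw [evalpF, ih, fA_eq, fA_eq, evalp]

def bigLF (E O : List AD) (k : List AD → β) : β :=
  pmulF (AD.nat 0) O E fun OE =>
  fL (pder AD.nat O) fun Od =>
  fL (pder AD.nat E) fun Ed =>
  pmulF (AD.nat 0) Od E fun OdE =>
  pmulF (AD.nat 0) Ed O fun EdO =>
  fL (padd OdE (pneg EdO)) fun D1 =>
  fL (pscale (AD.nat 2) (AD.nat 0 :: D1)) fun D2 =>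
  fL (padd OE D2) fun B =>
  pmulF (AD.nat 0) E E fun EE =>
  pmulF (AD.nat 0) O O fun OO =>
  fL (padd EE (pneg (AD.nat 0 :: OO))) fun A1 =>
  fL (pneg (pscale (AD.nat 1048832) A1)) fun A2 =>
  fL (pscale (AD.nat 65536) B) fun B2 =>
  fL (padd B2 (pneg (AD.nat 0 :: B))) fun B3 =>
  fL (padd A2 B3) k

lemma bigLF_eq (E O : List AD) (k : List AD → β) : bigLF E O k = k (bigL AD.nat E O) := by
  simp only [bigLF, fL_eq, pmulF_eq, bigL]

def bigRF (kap x1 x2 x3 : AD) (k : List AD → β) : β :=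
  fA (x1 * x1) fun y1 => fA (x2 * x2) fun y2 => fA (x3 * x3) fun y3 =>
  facF (AD.nat 0) y1 2 [kap] fun p1 =>
  facF (AD.nat 0) y2 3 p1 fun p2 =>
  facF (AD.nat 0) y3 9 p2 k

lemma bigRF_eq (kap x1 x2 x3 : AD) (k : List AD → β) :
    bigRF kap x1 x2 x3 k = k (bigR AD.nat kap x1 x2 x3) := by
  simp only [bigRF, fA_eq, facF_eq, bigR]

def eqsWF (E O : List AD) (kap x1 x2 x3 : AD) (k : List AD → β) : β :=
  bigLF E O fun L => bigRF kap x1 x2 x3 fun R => fL (padd L (pneg R)) k

lemma eqsWF_eq (E O : List AD) (kap x1 x2 x3 : AD) (k : List AD → β) :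
    eqsWF E O kap x1 x2 x3 k = k (eqsW AD.nat E O kap x1 x2 x3) := by
  simp only [eqsWF, bigLF_eq, bigRF_eq, fL_eq, eqsW]

def tpF (H : AD) (E O : List AD) (x : AD) (k : AD → β) : β :=
  fA (AD.nat 1 + H * x) fun b => sqsF 12 b fun b' =>
  fA (x * x) fun y => evalpF (AD.nat 0) y E fun e => evalpF (AD.nat 0) y O fun o =>
  fA (x * o) fun xo => fA (e + -xo) fun s => fA (b' * s) k

lemma tpF_eq (H : AD) (E O : List AD) (x : AD) (k : AD → β) :
    tpF H E O x k = k (tp AD.nat H E O x) := by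
  simp only [tpF, fA_eq, sqsF_eq, evalpF_eq, tp]

def tmF (H : AD) (E O : List AD) (x : AD) (k : AD → β) : β :=
  fA (AD.nat 1 + -(H * x)) fun b => sqsF 12 b fun b' =>
  fA (x * x) fun y => evalpF (AD.nat 0) y E fun e => evalpF (AD.nat 0) y O fun o =>
  fA (x * o) fun xo => fA (e + xo) fun s => fA (b' * s) k

lemma tmF_eq (H : AD) (E O : List AD) (x : AD) (k : AD → β) :
    tmF H E O x k = k (tm AD.nat H E O x) := by
  simp only [tmF, fA_eq, sqsF_eq, evalpF_eq, tm]

end

/-- A test for being nonzero on the polydisc. -/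
def okNe (a : AD) : Bool :=
  Nat.ble (Nat.succ a.rad) (Nat.add (Nat.sub a.v.a a.v.b) (Nat.sub a.v.b a.v.a))

/-- The test of one of the last three equations. -/
def okV (m : ℕ) (H : AD) (E O : List AD) (x : AD) : Bool :=
  tpF H E O x fun p => tmF H E O x fun q => okEq m (q + -p) && okNe p

lemma okV_eq (m : ℕ) (H : AD) (E O : List AD) (x : AD) :
    okV m H E O x = (okEq m (eqv AD.nat H E O x) && okNe (tp AD.nat H E O x)) := by
  simp only [okV, tpF_eq, tmF_eq, eqv]

/-- The test of the first 15 equations. -/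
def okW (E O : List AD) (kap x1 x2 x3 : AD) : Bool :=
  eqsWF E O kap x1 x2 x3 fun l => okAll 0 l

lemma okW_eq (E O : List AD) (kap x1 x2 x3 : AD) :
    okW E O kap x1 x2 x3 = okAll 0 (eqsW AD.nat E O kap x1 x2 x3) := by
  simp only [okW, eqsWF_eq]

/-- The whole test. -/
def okTot (E O : List AD) (kap x1 x2 x3 : AD) : Bool :=
  fL E fun E => fL O fun O => fA kap fun kap => fA x1 fun x1 => fA x2 fun x2 => fA x3 fun x3 =>
    okV 15 AD.H E O x1 && okV 16 AD.H E O x2 && okV 17 AD.H E O x3 && okW E O kap x1 x2 x3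

lemma okTot_eq (E O : List AD) (kap x1 x2 x3 : AD) :
    okTot E O kap x1 x2 x3 =
      ((okEq 15 (eqv AD.nat AD.H E O x1) && okNe (tp AD.nat AD.H E O x1))
      && (okEq 16 (eqv AD.nat AD.H E O x2) && okNe (tp AD.nat AD.H E O x2))
      && (okEq 17 (eqv AD.nat AD.H E O x3) && okNe (tp AD.nat AD.H E O x3))
      && okAll 0 (eqsW AD.nat E O kap x1 x2 x3)) := by
  simp only [okTot, fL_eq, fA_eq, okV_eq, okW_eq]

end Pool.Agent.N832.CF
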