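import Pool.Agent.N832.CF.Alg
import Pool.Agent.N832.CF.Defs

/-!
# The rational map attached to a solution of the system
-/

namespace Pool.Agent.N832.CF

open Polynomial OnePoint

/-- The multiplier is outside the disk. -/
lemma far {c : ℂ} (h : ‖c - ⟨9.463924283430476, -7.929442960270287⟩‖ ≤ 1 / 10 ^ 10) :
    65536 * c ≠ 1048832 ∧ (4097 - 256 * c ≠ 0) ∧ (4097 - 256 * c ≠ 1) ∧
      2055 < ‖(4097 - 256 * c) - 2056‖ := by
  set z : ℂ := ⟨9.463924283430476, -7.929442960270287⟩ with hz
  have hre : |(c - z).re| ≤ 1 / 10 ^ 10 := (Complex.abs_re_le_norm _).trans h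
  have him : |(c - z).im| ≤ 1 / 10 ^ 10 := (Complex.abs_im_le_norm _).trans h
  rw [Complex.sub_re, abs_le] at hre
  rw [Complex.sub_im, abs_le] at him
  have zre : z.re = 9.463924283430476 := rfl
  have zim : z.im = -7.929442960270287 := rfl
  rw [zre] at hre
  rw [zim] at him
  have c1 : c.im < -7.92944296 := by norm_num at him ⊢; linarith [him.2]
  have c2 : c.re < 9.4639243 := by norm_num at hre ⊢; linarith [hre.2]
  have c3 : 9.4639242 < c.re := by norm_num at hre ⊢; linarith [hre.1]
  have i1 : (256 * c).im = 256 * c.im := by simp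
  have i2 : (256 * c).re = 256 * c.re := by simp
  refine ⟨?_, ?_, ?_, ?_⟩
  · intro h0
    have := congrArg Complex.im h0
    have e : (65536 * c).im = 65536 * c.im := by simp
    rw [e] at this
    have e2 : (1048832 : ℂ).im = 0 := by simp
    rw [e2] at this
    linarith
  · intro h0
    have := congrArg Complex.im h0
    have e : (4097 - 256 * c).im = - (256 * c.im) := by simp
    rw [e, Complex.zero_im] at this
    linarith
  · intro h0
    have := congrArg Complex.im h0
    have e : (4097 - 256 * c).im = - (256 * c.im) := by simp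
    rw [e, Complex.one_im] at this
    linarith
  · have e1 : ((4097 - 256 * c) - 2056).re = 4097 - 256 * c.re - 2056 := by simp
    have e2 : ((4097 - 256 * c) - 2056).im = - (256 * c.im) := by simp
    have hsq : (2055 : ℝ) ^ 2 < ‖(4097 - 256 * c) - 2056‖ ^ 2 := by
      rw [← Complex.normSq_eq_norm_sq, Complex.normSq_apply, e1, e2]
      nlinarith
    exact lt_of_pow_lt_pow_left₀ 2 (norm_nonneg _) hsq

/-- The abstract form of the main result, with the exponent `m` opaque. -/
theorem main_of {m : ℕ} (hm : m ≠ 0) (hev : Even m) (hm' : (m : ℂ) = 4096) (E O : ℂ[X])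
    (kap x1 x2 x3 : ℂ) (hE : E.natDegree ≤ 7) (hO : O.natDegree ≤ 6) (hE0 : E.coeff 0 = 1)
    (hI : Ident E O kap x1 x2 x3)
    (v1 : Val m E O x1) (v2 : Val m E O x2) (v3 : Val m E O x3)
    (hb : ‖O.coeff 0 - ⟨9.463924283430476, -7.929442960270287⟩‖ ≤ 1 / 10 ^ 10) :
    ∃ f : RatMap, f.degree = m + 15 ∧ f.CriticallyFixed ∧
      ∃ μ ∈ f.multiplierSet, 2055 < ‖μ - 2056‖ := by
  obtain ⟨far1, far2, far3, far4⟩ := far hb
  have hk : kap ≠ 0 := kap_ne hI hE0 far1
  have h7 := E7_ne hI hk hE hO
  obtain ⟨dN, dD, cD⟩ := degs hev hE hO h7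
  have hcop : IsCoprime (NN m E O) (DD m E O) := by
    rw [Polynomial.isCoprime_iff_aeval_ne_zero_of_isAlgClosed ℂ ℂ]
    intro a
    by_contra hcon
    push Not at hcon
    obtain ⟨hN, hD⟩ := hcon
    rw [Polynomial.coe_aeval_eq_eval] at hN hD
    have hW : (derivative (NN m E O)).eval a * (DD m E O).eval a
      - (NN m E O).eval a * (derivative (DD m E O)).eval a = 0 := by
      rw [hN, hD]; ring
    exact (crit_fixed hm hm' hI hk v1 v2 v3 hW).1 hD
  obtain ⟨z1, z2, z3⟩ := at_zero (O := O) hm' hE0
  refine ⟨⟨NN m E O, DD m E O, hcop⟩, ?_, ?_, ?_⟩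
  · change max (NN m E O).natDegree (DD m E O).natDegree = _
    rw [dN]; exact max_eq_left dD
  · intro a ha
    induction a using OnePoint.rec with
    | infty =>
      apply RatMap.map_infty_of
      change (DD m E O).coeff (max (NN m E O).natDegree (DD m E O).natDegree) = 0
      rw [dN, max_eq_left dD, cD]
    | coe z =>
      have ha' : RatMap.localDeriv ⟨NN m E O, DD m E O, hcop⟩ (OnePoint.some z) = 0 := ha
      by_cases hD : (DD m E O).eval z = 0
      · have hn : (NN m E O).eval z ≠ 0 := by
          intro hn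
          have hW : (derivative (NN m E O)).eval z * (DD m E O).eval z
            - (NN m E O).eval z * (derivative (DD m E O)).eval z = 0 := by
            rw [hn, hD]; ring
          exact (crit_fixed hm hm' hI hk v1 v2 v3 hW).1 hD
        rw [RatMap.localDeriv_pole hD hn] at ha'
        change ((derivative (DD m E O)).eval z * (NN m E O).eval z
          - (DD m E O).eval z * (derivative (NN m E O)).eval z) / ((NN m E O).eval z) ^ 2 = 0 at ha'
        rw [div_eq_zero_iff] at ha'
        rcases ha' with h | h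
        · have hW : (derivative (NN m E O)).eval z * (DD m E O).eval z
            - (NN m E O).eval z * (derivative (DD m E O)).eval z = 0 := by
            linear_combination -h
          exact absurd hD (crit_fixed hm hm' hI hk v1 v2 v3 hW).1
        · exact absurd h (pow_ne_zero _ hn)
      · rw [RatMap.localDeriv_of hD] at ha'
        change ((derivative (NN m E O)).eval z * (DD m E O).eval z
          - (NN m E O).eval z * (derivative (DD m E O)).eval z) / ((DD m E O).eval z) ^ 2 = 0 at ha'
        rw [div_eq_zero_iff] at ha'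
        rcases ha' with h | h
        · have := (crit_fixed hm hm' hI hk v1 v2 v3 h).2
          change RatMap.map ⟨NN m E O, DD m E O, hcop⟩ (OnePoint.some z) = OnePoint.some z
          rw [RatMap.map_some_of hD]
          congr 1
          change (NN m E O).eval z / (DD m E O).eval z = z
          rw [this]
          field_simp
        · exact absurd h (pow_ne_zero _ hD)
  · have hD : (DD m E O).eval 0 ≠ 0 := by rw [z1]; norm_num
    refine ⟨4097 - 256 * O.coeff 0, ⟨far2, far3, OnePoint.some 0, ?_, ?_⟩, far4⟩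
    · rw [RatMap.map_some_of hD]
      congr 1
      change (NN m E O).eval 0 / (DD m E O).eval 0 = 0
      rw [z2, zero_div]
    · rw [RatMap.localDeriv_of hD]
      change ((derivative (NN m E O)).eval 0 * (DD m E O).eval 0
          - (NN m E O).eval 0 * (derivative (DD m E O)).eval 0) / ((DD m E O).eval 0) ^ 2 = _
      rw [z1, z2, z3]
      ring

/-- The existence of the counterexample. -/
theorem main_exists : ∃ f : RatMap, f.degree = 4111 ∧ f.CriticallyFixed ∧
      ∃ μ ∈ f.multiplierSet, 2055 < ‖μ - 2056‖ := by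
  obtain ⟨η, E, O, kap, x1, x2, x3, hη, hE, hO, hE0, hI, hv, hc⟩ := exists_solution'
  have hb := bound_V7 hη
  rw [← hc] at hb
  have hI' : Ident E O kap x1 x2 x3 := hI
  obtain ⟨m, hm⟩ : ∃ m : ℕ, m = 4096 := ⟨_, rfl⟩
  rw [← hm] at hv
  have w1 : Val m E O x1 := hv x1 (Or.inl rfl)
  have w2 : Val m E O x2 := hv x2 (Or.inr (Or.inl rfl))
  have w3 : Val m E O x3 := hv x3 (Or.inr (Or.inr rfl))
  have h0 : m ≠ 0 := by omega
  have h1 : Even m := ⟨2048, by omega⟩
  have h2 : (m : ℂ) = 4096 := by rw [hm]; norm_num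
  obtain ⟨f, hf, hr⟩ := main_of h0 h1 h2 E O kap x1 x2 x3 hE hO hE0 hI' w1 w2 w3 hb
  exact ⟨f, by rw [hf]; omega, hr⟩

end Pool.Agent.N832.CF
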