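import Pool.Agent.N832.CF.Data

/-!
# The exact solution of the system
-/

namespace Pool.Agent.N832.CF

open Polynomial

/-- The affine function attached to a piece of data. -/
noncomputable def affF (a : AD) : X → ℂ := fun x => toC a.v + lin a.g (ext x)

lemma Snd.affF {a : AD} (he : a.e = 0) (hd : a.d = 0) : Snd a (affF a) := by
  obtain ⟨v, e, g, d⟩ := a
  obtain rfl : e = 0 := he
  obtain rfl : d = 0 := hd
  exact Snd.aff v g

/-- Natural numbers as constant functions. -/
noncomputable abbrev natF : ℕ → (X → ℂ) := fun n => (n : X → ℂ)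

noncomputable def EF : List (X → ℂ) :=
  [natF 1, affF V0, affF V1, affF V2, affF V3, affF V4, affF V5, affF V6]

noncomputable def OF : List (X → ℂ) :=
  [affF V7, affF V8, affF V9, affF V10, affF V11, affF V12, affF V13]

lemma RL_E : RL EA EF := by
  unfold EA EF
  exact .cons (Snd.nat 1) (.cons (Snd.affF rfl rfl) (.cons (Snd.affF rfl rfl)
    (.cons (Snd.affF rfl rfl) (.cons (Snd.affF rfl rfl) (.cons (Snd.affF rfl rfl)
    (.cons (Snd.affF rfl rfl) (.cons (Snd.affF rfl rfl) .nil)))))))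

lemma RL_O : RL OA OF := by
  unfold OA OF
  exact .cons (Snd.affF rfl rfl) (.cons (Snd.affF rfl rfl) (.cons (Snd.affF rfl rfl)
    (.cons (Snd.affF rfl rfl) (.cons (Snd.affF rfl rfl) (.cons (Snd.affF rfl rfl)
    (.cons (Snd.affF rfl rfl) .nil))))))

/-- The first fifteen equations as functions. -/
noncomputable def WF : List (X → ℂ) :=
  eqsW natF EF OF (affF V14) (affF V15) (affF V16) (affF V17)

lemma RL_W : RL (eqsW AD.nat EA OA V14 V15 V16 V17) WF :=
  RL.eqsW RL_E RL_O (Snd.affF rfl rfl) (Snd.affF rfl rfl) (Snd.affF rfl rfl) (Snd.affF rfl rfl)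

lemma WF_length : WF.length = 15 := by decide +kernel

/-- The numerical information, with all numbers hidden. -/
theorem hidden : ∃ (E O : List AD) (E' O' : List (X → ℂ)) (k x1 x2 x3 : AD)
    (k' x1' x2' x3' : X → ℂ), RL E E' ∧ RL O O' ∧ Snd k k' ∧ Snd x1 x1' ∧ Snd x2 x2' ∧
      Snd x3 x3' ∧ okTot E O k x1 x2 x3 = true ∧
      (eqsW natF E' O' k' x1' x2' x3').length = 15 ∧
      (∃ t, E' = natF 1 :: t ∧ t.length = 7) ∧
      (∃ t, O' = affF V7 :: t ∧ t.length = 6) :=
  ⟨EA, OA, EF, OF, V14, V15, V16, V17, affF V14, affF V15, affF V16, affF V17, RL_E, RL_O,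
    Snd.affF rfl rfl, Snd.affF rfl rfl, Snd.affF rfl rfl, Snd.affF rfl rfl, check_tot, WF_length,
    ⟨_, rfl, rfl⟩, ⟨_, rfl, rfl⟩⟩

lemma okNe_spec {a : AD} {f : X → ℂ} (h : Snd a f) (hok : okNe a = true) {x : X}
    (hx : ‖x‖ ≤ (RHO : ℝ) / 2 ^ 192) : f x ≠ 0 := by
  intro h0
  have h1 := h.near hx
  rw [h0, zero_sub, norm_neg] at h1
  have h2 : a.rad + 1 ≤ (a.v.a - a.v.b) + (a.v.b - a.v.a) := Nat.le_of_ble_eq_true hok
  have h3 : |(toC a.v).re| ≤ ‖toC a.v‖ := Complex.abs_re_le_norm _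
  have h4 : |(toC a.v).re| = (((a.v.a - a.v.b) + (a.v.b - a.v.a) : ℕ) : ℝ) / 2 ^ 192 := by
    simp only [toC, abs_div, Nat.abs_ofNat, abs_pow]
    congr 1
    rcases le_total a.v.b a.v.a with h | h
    · rw [Nat.sub_eq_zero_of_le h, add_zero, Nat.cast_sub h, abs_of_nonneg]
      have : (a.v.b : ℝ) ≤ a.v.a := by exact_mod_cast h
      linarith
    · rw [Nat.sub_eq_zero_of_le h, zero_add, Nat.cast_sub h, abs_of_nonpos]
      · ring
      · have : (a.v.a : ℝ) ≤ a.v.b := by exact_mod_cast h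
        linarith
  have h5 : (((a.v.a - a.v.b) + (a.v.b - a.v.a) : ℕ) : ℝ) / 2 ^ 192 ≤ (a.rad : ℝ) / 2 ^ 192 := by
    rw [← h4]; exact h3.trans h1
  have h6 : (((a.v.a - a.v.b) + (a.v.b - a.v.a) : ℕ) : ℝ) ≤ (a.rad : ℝ) :=
    (div_le_div_iff_of_pos_right (by positivity)).1 h5
  have h7 : (a.v.a - a.v.b) + (a.v.b - a.v.a) ≤ a.rad := by exact_mod_cast h6
  omega

lemma evalp_eq' {R : Type*} [CommRing R] (x : R) (p : List R) :
    evalp ((0 : ℕ) : R) x p = (toP p).eval x := by
  rw [Nat.cast_zero, evalp_eq]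

lemma sqs12 {R : Type*} [CommRing R] (x : R) : sqs 12 x = x ^ 4096 := by
  rw [sqs_eq]
  norm_num

lemma tp_eq {R : Type*} [CommRing R] (H x : R) (E O : List R) :
    tp (fun n => (n : R)) H E O x
      = (1 + H * x) ^ 4096 * ((toP E).eval (x * x) - x * (toP O).eval (x * x)) := by
  rw [tp, sqs12, evalp_eq', evalp_eq', Nat.cast_one, sub_eq_add_neg]

lemma tm_eq {R : Type*} [CommRing R] (H x : R) (E O : List R) :
    tm (fun n => (n : R)) H E O x
      = (1 - H * x) ^ 4096 * ((toP E).eval (x * x) + x * (toP O).eval (x * x)) := by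
  rw [tm, sqs12, evalp_eq', evalp_eq', Nat.cast_one, ← sub_eq_add_neg]

lemma eqv_eq {R : Type*} [CommRing R] (H x : R) (E O : List R) :
    eqv (fun n => (n : R)) H E O x
      = tm (fun n => (n : R)) H E O x - tp (fun n => (n : R)) H E O x := by
  rw [eqv, sub_eq_add_neg]

lemma toP_zero {R : Type*} [CommRing R] {l : List R} (h : ∀ a ∈ l, a = 0) : toP l = 0 := by
  induction l with
  | nil => rfl
  | cons a t ih =>
    rw [toP, h a (List.mem_cons_self), ih (fun b hb => h b (List.mem_cons_of_mem _ hb))]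
    simp

lemma toP_bigL {R : Type*} [CommRing R] (E O : List R) : toP (bigL (fun n => (n : R)) E O)
    = -(C 1048832 * (toP E * toP E - Polynomial.X * (toP O * toP O)))
      + (C 65536 - Polynomial.X) * (toP O * toP E + C 2 * (Polynomial.X
        * (derivative (toP O) * toP E - derivative (toP E) * toP O))) := by
  simp only [bigL, Nat.cast_zero, toP_padd, toP_pneg, toP_pscale, toP_pmul, toP_pder, toP, C_0,
    Nat.cast_ofNat]
  ring

lemma toP_eqsW {R : Type*} [CommRing R] (E O : List R) (kap x1 x2 x3 : R) :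
    toP (eqsW (fun n => (n : R)) E O kap x1 x2 x3)
      = toP (bigL (fun n => (n : R)) E O) - toP (bigR (fun n => (n : R)) kap x1 x2 x3) := by
  rw [eqsW, toP_padd, toP_pneg, sub_eq_add_neg]

lemma toP_bigR {R : Type*} [CommRing R] (kap x1 x2 x3 : R) :
    toP (bigR (fun n => (n : R)) kap x1 x2 x3)
    = (C (x3 * x3) - Polynomial.X) ^ 9 * ((C (x2 * x2) - Polynomial.X) ^ 3
      * ((C (x1 * x1) - Polynomial.X) ^ 2 * C kap)) := by
  simp only [bigR, Nat.cast_zero, toP_fac, toP]
  ring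

lemma natDegree_toP (l : List ℂ) : (toP l).natDegree ≤ l.length - 1 := by
  induction l with
  | nil => simp [toP]
  | cons a t ih =>
    cases t with
    | nil => simp [toP]
    | cons b s =>
      rw [toP]
      refine (natDegree_add_le _ _).trans ?_
      rw [natDegree_C]
      refine (max_le (Nat.zero_le _) ?_)
      refine natDegree_mul_le.trans ?_
      rw [natDegree_X]
      simp only [List.length_cons] at ih ⊢
      omega

lemma coeff_toP (a : ℂ) (t : List ℂ) : (toP (a :: t)).coeff 0 = a := by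
  simp [toP]

/-- The solution, before the last numerical bound is made explicit. -/
theorem exists_solution' : ∃ (η : X) (E O : ℂ[X]) (kap x1 x2 x3 : ℂ),
    ‖η‖ ≤ (RHO : ℝ) / 2 ^ 192 ∧
    E.natDegree ≤ 7 ∧ O.natDegree ≤ 6 ∧ E.coeff 0 = 1 ∧
    (-(C 1048832 * (E * E - Polynomial.X * (O * O)))
      + (C 65536 - Polynomial.X) * (O * E + C 2 * (Polynomial.X
        * (derivative O * E - derivative E * O)))
      = (C (x3 * x3) - Polynomial.X) ^ 9 * ((C (x2 * x2) - Polynomial.X) ^ 3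
      * ((C (x1 * x1) - Polynomial.X) ^ 2 * C kap))) ∧
    (∀ x, (x = x1 ∨ x = x2 ∨ x = x3) →
      (1 - 1 / 256 * x) ^ 4096 * (E.eval (x * x) + x * O.eval (x * x))
        = (1 + 1 / 256 * x) ^ 4096 * (E.eval (x * x) - x * O.eval (x * x)) ∧
      (1 + 1 / 256 * x) ^ 4096 * (E.eval (x * x) - x * O.eval (x * x)) ≠ 0) ∧
    O.coeff 0 = affF V7 η := by
  obtain ⟨EA, OA, EF, OF, k, x1, x2, x3, k', x1', x2', x3', hE, hO, hk, s1, s2, s3, htot, hlen,
    ⟨tE, hE1, hE2⟩, ⟨tO, hO1, hO2⟩⟩ := hidden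
  rw [okTot_eq] at htot
  rw [Bool.and_eq_true, Bool.and_eq_true, Bool.and_eq_true, Bool.and_eq_true, Bool.and_eq_true,
    Bool.and_eq_true] at htot
  obtain ⟨⟨⟨⟨a1, b1⟩, a2, b2⟩, a3, b3⟩, hW⟩ := htot
  have hRW : RL (eqsW AD.nat EA OA k x1 x2 x3) (eqsW natF EF OF k' x1' x2' x3') :=
    RL.eqsW hE hO hk s1 s2 s3
  generalize hWF : eqsW natF EF OF k' x1' x2' x3' = WF at hRW hlen
  generalize hHF : (fun _ => (1 / 256 : ℂ) : X → ℂ) = HF
  have sH : Snd AD.H HF := by rw [← hHF]; exact Snd.H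
  have v1 := Snd.eqv sH hE hO s1
  have v2 := Snd.eqv sH hE hO s2
  have v3 := Snd.eqv sH hE hO s3
  have t1 := Snd.tp sH hE hO s1
  have t2 := Snd.tp sH hE hO s2
  have t3 := Snd.tp sH hE hO s3
  have key : ∃ η : X, ‖η‖ ≤ (RHO : ℝ) / 2 ^ 192 ∧ (∀ f ∈ WF, f η = 0) ∧
      eqv natF HF EF OF x1' η = 0 ∧ eqv natF HF EF OF x2' η = 0 ∧
      eqv natF HF EF OF x3' η = 0 := by
    generalize eqv natF HF EF OF x1' = f1 at v1
    generalize eqv natF HF EF OF x2' = f2 at v2
    generalize eqv natF HF EF OF x3' = f3 at v3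
    obtain ⟨η, hη, hz⟩ := exists_zero (fun m : Fin 18 =>
      if h : (m : ℕ) < 15 then WF[(m : ℕ)]'(by rw [hlen]; exact h)
      else if (m : ℕ) = 15 then f1
      else if (m : ℕ) = 16 then f2
      else f3) (fun m => by
      by_cases h : (m : ℕ) < 15
      · rw [dif_pos h]
        have := forall_of_RL _ WF 0 hRW hW m (WF[(m : ℕ)]'(by rw [hlen]; exact h)) (by simp)
        rw [zero_add] at this
        exact this
      · rw [dif_neg h]
        by_cases h15 : (m : ℕ) = 15
        · rw [if_pos h15, h15]; exact ⟨_, v1, a1⟩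
        · rw [if_neg h15]
          by_cases h16 : (m : ℕ) = 16
          · rw [if_pos h16, h16]; exact ⟨_, v2, a2⟩
          · rw [if_neg h16]
            have h17 : (m : ℕ) = 17 := by have := m.2; omega
            rw [h17]; exact ⟨_, v3, a3⟩)
    refine ⟨η, hη, ?_, ?_, ?_, ?_⟩
    · intro f hf
      obtain ⟨i, hi, rfl⟩ := List.getElem_of_mem hf
      have hi' : i < 15 := by rw [hlen] at hi; exact hi
      have := hz ⟨i, by omega⟩
      rw [dif_pos hi'] at this
      exact this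
    · have := hz ⟨15, by norm_num⟩
      simpa using this
    · have := hz ⟨16, by norm_num⟩
      simpa using this
    · have := hz ⟨17, by norm_num⟩
      simpa using this
  obtain ⟨η, hη, hWz, z1, z2, z3⟩ := key
  have n1 := okNe_spec t1 b1 hη
  have n2 := okNe_spec t2 b2 hη
  have n3 := okNe_spec t3 b3 hη
  let φ : (X → ℂ) →+* ℂ := Pi.evalRingHom (fun _ => ℂ) η
  have hφ : ∀ f : X → ℂ, φ f = f η := fun f => rfl
  have hmap := map_eqsW φ EF OF k' x1' x2' x3'
  have eH : φ HF = 1 / 256 := by rw [← hHF]; rfl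
  have hzero : toP (eqsW (fun n => (n : ℂ)) (EF.map φ) (OF.map φ) (φ k') (φ x1') (φ x2')
      (φ x3')) = 0 := by
    rw [← hmap]
    apply toP_zero
    intro a ha
    obtain ⟨f, hf, rfl⟩ := List.mem_map.1 ha
    exact hWz f (by rw [← hWF]; exact hf)
  rw [toP_eqsW, toP_bigL, toP_bigR] at hzero
  have val : ∀ x : X → ℂ, eqv natF HF EF OF x η = 0 → tp natF HF EF OF x η ≠ 0 →
      (1 - 1 / 256 * φ x) ^ 4096 * ((toP (EF.map φ)).eval (φ x * φ x)
        + φ x * (toP (OF.map φ)).eval (φ x * φ x))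
        = (1 + 1 / 256 * φ x) ^ 4096 * ((toP (EF.map φ)).eval (φ x * φ x)
          - φ x * (toP (OF.map φ)).eval (φ x * φ x)) ∧
      (1 + 1 / 256 * φ x) ^ 4096 * ((toP (EF.map φ)).eval (φ x * φ x)
        - φ x * (toP (OF.map φ)).eval (φ x * φ x)) ≠ 0 := by
    intro x h1 h2
    have e1 : φ (eqv natF HF EF OF x) = _ := map_eqv φ HF EF OF x
    have e2 : φ (tp natF HF EF OF x) = _ := map_tp φ HF EF OF x
    rw [hφ, h1, eH] at e1
    rw [hφ, eH] at e2
    rw [e2] at h2
    rw [eqv_eq, tm_eq, tp_eq] at e1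
    rw [tp_eq] at h2
    exact ⟨(sub_eq_zero.1 e1.symm), h2⟩
  refine ⟨η, toP (EF.map φ), toP (OF.map φ), φ k', φ x1', φ x2', φ x3', hη, ?_, ?_, ?_, ?_,
    ?_, ?_⟩
  · refine (natDegree_toP _).trans ?_
    rw [List.length_map, hE1, List.length_cons, hE2]
  · refine (natDegree_toP _).trans ?_
    rw [List.length_map, hO1, List.length_cons, hO2]
  · rw [hE1, List.map_cons, coeff_toP, hφ]
    simp
  · linear_combination hzero
  · intro x hx
    rcases hx with rfl | rfl | rfl
    · exact val x1' z1 n1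
    · exact val x2' z2 n2
    · exact val x3' z3 n3
  · rw [hO1, List.map_cons, coeff_toP, hφ]

lemma V7_v : V7.v = ⟨59406015543089589505091994184712265148193249824291874681276, 0, 0,
    49773920166562318708507712747008048234360712777017651542166⟩ := rfl

lemma V7_rad : Nat.ble V7.rad 1267650600228229401496703205376 = true := by decide +kernel

lemma bound_V7 {η : X} (hη : ‖η‖ ≤ (RHO : ℝ) / 2 ^ 192) :
    ‖affF V7 η - ⟨9.463924283430476, -7.929442960270287⟩‖ ≤ 1 / 10 ^ 10 := by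
  have h1 := (Snd.affF (a := V7) rfl rfl).near hη
  have h2 : V7.rad ≤ 1267650600228229401496703205376 := Nat.le_of_ble_eq_true V7_rad
  have h3 : (V7.rad : ℝ) / 2 ^ 192 ≤ 1 / 10 ^ 11 := by
    have : (V7.rad : ℝ) ≤ 1267650600228229401496703205376 := by exact_mod_cast h2
    rw [div_le_iff₀ (by positivity)]
    refine this.trans ?_
    norm_num
  have h4 : ‖toC V7.v - ⟨9.463924283430476, -7.929442960270287⟩‖ ≤ 2 / 10 ^ 11 := by
    refine (Complex.norm_le_abs_re_add_abs_im _).trans ?_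
    rw [V7_v]
    simp only [toC, Complex.sub_re, Complex.sub_im]
    have e1 : |(((59406015543089589505091994184712265148193249824291874681276 : ℕ) : ℝ)
        - ((0 : ℕ) : ℝ)) / 2 ^ 192 - 9.463924283430476| ≤ 1 / 10 ^ 11 := by
      rw [abs_le]; constructor <;> norm_num
    have e2 : |(((0 : ℕ) : ℝ) - ((49773920166562318708507712747008048234360712777017651542166 : ℕ) : ℝ))
        / 2 ^ 192 - -7.929442960270287| ≤ 1 / 10 ^ 11 := by
      rw [abs_le]; constructor <;> norm_num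
    linarith
  have e : affF V7 η - ⟨9.463924283430476, -7.929442960270287⟩
      = (affF V7 η - toC V7.v) + (toC V7.v - ⟨9.463924283430476, -7.929442960270287⟩) := by ring
  rw [e]
  refine (norm_add_le _ _).trans ((add_le_add (h1.trans h3) h4).trans ?_)
  norm_num

end Pool.Agent.N832.CF
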