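import Pool.Agent.N832.CF.AD

/-!
# List polynomials and the system of equations
-/

namespace Pool.Agent.N832.CF

section ops
variable {R : Type*} [Add R] [Mul R] [Neg R]

def padd : List R → List R → List R
  | [], q => q
  | a :: p, [] => a :: p
  | a :: p, b :: q => (a + b) :: padd p q

def pneg : List R → List R
  | [] => []
  | a :: p => -a :: pneg p

def pscale (c : R) : List R → List R
  | [] => []
  | a :: p => c * a :: pscale c p

def pmul (z : R) : List R → List R → List R
  | [], _ => []
  | a :: p, q => padd (pscale a q) (z :: pmul z p q)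

def pderAux (nat : ℕ → R) : ℕ → List R → List R
  | _, [] => []
  | n, a :: p => nat n * a :: pderAux nat (n + 1) p

def pder (nat : ℕ → R) : List R → List R
  | [] => []
  | _ :: p => pderAux nat 1 p

def evalp (z x : R) : List R → R
  | [] => z
  | a :: p => a + x * evalp z x p

def sqs : ℕ → R → R
  | 0, x => x
  | n + 1, x => sqs n (x * x)

/-- Multiply a polynomial by `(y - v) ^ n`. -/
def fac (z y : R) : ℕ → List R → List R
  | 0, p => p
  | n + 1, p => fac z y n (padd (pscale y p) (pneg (z :: p)))

/-- The left hand side of the main identity. -/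
def bigL (nat : ℕ → R) (E O : List R) : List R :=
  let z := nat 0
  let B := padd (pmul z O E) (pscale (nat 2) (z :: padd (pmul z (pder nat O) E)
    (pneg (pmul z (pder nat E) O))))
  padd (pneg (pscale (nat 1048832) (padd (pmul z E E) (pneg (z :: pmul z O O)))))
    (padd (pscale (nat 65536) B) (pneg (z :: B)))

/-- The right hand side of the main identity. -/
def bigR (nat : ℕ → R) (kap x1 x2 x3 : R) : List R :=
  let z := nat 0
  fac z (x3 * x3) 9 (fac z (x2 * x2) 3 (fac z (x1 * x1) 2 [kap]))

/-- The first 15 equations. -/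
def eqsW (nat : ℕ → R) (E O : List R) (kap x1 x2 x3 : R) : List R :=
  padd (bigL nat E O) (pneg (bigR nat kap x1 x2 x3))

def tp (nat : ℕ → R) (H : R) (E O : List R) (x : R) : R :=
  sqs 12 (nat 1 + H * x) * (evalp (nat 0) (x * x) E + -(x * evalp (nat 0) (x * x) O))

def tm (nat : ℕ → R) (H : R) (E O : List R) (x : R) : R :=
  sqs 12 (nat 1 + -(H * x)) * (evalp (nat 0) (x * x) E + x * evalp (nat 0) (x * x) O)

/-- The last three equations. -/
def eqv (nat : ℕ → R) (H : R) (E O : List R) (x : R) : R :=
  tm nat H E O x + -(tp nat H E O x)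

end ops

section rel

abbrev RL : List AD → List (X → ℂ) → Prop := List.Forall₂ Snd

lemma RL.padd {p : List AD} {p' : List (X → ℂ)} (hp : RL p p') :
    ∀ {q : List AD} {q' : List (X → ℂ)}, RL q q' → RL (padd p q) (padd p' q') := by
  induction hp with
  | nil => intro q q' hq; exact hq
  | cons ha ht ih =>
    intro q q' hq
    cases hq with
    | nil => exact List.Forall₂.cons ha ht
    | cons hb hs => exact List.Forall₂.cons (ha.add hb) (ih hs)

lemma RL.pneg {p : List AD} {p' : List (X → ℂ)} (hp : RL p p') : RL (pneg p) (pneg p') := by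
  induction hp with
  | nil => exact List.Forall₂.nil
  | cons ha ht ih => exact List.Forall₂.cons ha.neg ih

lemma RL.pscale {c : AD} {c' : X → ℂ} (hc : Snd c c') {p : List AD} {p' : List (X → ℂ)}
    (hp : RL p p') : RL (pscale c p) (pscale c' p') := by
  induction hp with
  | nil => exact List.Forall₂.nil
  | cons ha ht ih => exact List.Forall₂.cons (hc.mul ha) ih

lemma RL.pmul {z : AD} {z' : X → ℂ} (hz : Snd z z') {p : List AD} {p' : List (X → ℂ)}
    (hp : RL p p') {q : List AD} {q' : List (X → ℂ)} (hq : RL q q') :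
    RL (pmul z p q) (pmul z' p' q') := by
  induction hp with
  | nil => exact List.Forall₂.nil
  | cons ha ht ih => exact RL.padd (RL.pscale ha hq) (List.Forall₂.cons hz ih)

lemma RL.pderAux {p : List AD} {p' : List (X → ℂ)} (hp : RL p p') :
    ∀ n, RL (pderAux AD.nat n p) (pderAux (fun n => (n : X → ℂ)) n p') := by
  induction hp with
  | nil => intro n; exact List.Forall₂.nil
  | cons ha ht ih => intro n; exact List.Forall₂.cons ((Snd.nat n).mul ha) (ih _)

lemma RL.pder {p : List AD} {p' : List (X → ℂ)} (hp : RL p p') :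
    RL (pder AD.nat p) (pder (fun n => (n : X → ℂ)) p') := by
  cases hp with
  | nil => exact List.Forall₂.nil
  | cons ha ht => exact RL.pderAux ht 1

lemma Snd.evalp {z x : AD} {z' x' : X → ℂ} (hz : Snd z z') (hx : Snd x x')
    {p : List AD} {p' : List (X → ℂ)} (hp : RL p p') : Snd (evalp z x p) (evalp z' x' p') := by
  induction hp with
  | nil => exact hz
  | cons ha ht ih => exact ha.add (hx.mul ih)

lemma Snd.sqs (n : ℕ) : ∀ {x : AD} {x' : X → ℂ}, Snd x x' → Snd (sqs n x) (sqs n x') := by
  induction n with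
  | zero => intro x x' h; exact h
  | succ n ih => intro x x' h; exact ih (h.mul h)

lemma RL.fac {z y : AD} {z' y' : X → ℂ} (hz : Snd z z') (hy : Snd y y') (n : ℕ) :
    ∀ {p : List AD} {p' : List (X → ℂ)}, RL p p' → RL (fac z y n p) (fac z' y' n p') := by
  induction n with
  | zero => intro p p' h; exact h
  | succ n ih =>
    intro p p' h
    exact ih (RL.padd (RL.pscale hy h) (RL.pneg (List.Forall₂.cons hz h)))

lemma RL.bigL {E O : List AD} {E' O' : List (X → ℂ)} (hE : RL E E') (hO : RL O O') :
    RL (bigL AD.nat E O) (bigL (fun n => (n : X → ℂ)) E' O') := by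
  have hz := Snd.nat 0
  have hB := RL.padd (RL.pmul hz hO hE) (RL.pscale (Snd.nat 2) (List.Forall₂.cons hz
    (RL.padd (RL.pmul hz (RL.pder hO) hE) (RL.pneg (RL.pmul hz (RL.pder hE) hO)))))
  exact RL.padd (RL.pneg (RL.pscale (Snd.nat 1048832) (RL.padd (RL.pmul hz hE hE)
    (RL.pneg (List.Forall₂.cons hz (RL.pmul hz hO hO))))))
    (RL.padd (RL.pscale (Snd.nat 65536) hB) (RL.pneg (List.Forall₂.cons hz hB)))

lemma RL.bigR {kap x1 x2 x3 : AD} {kap' x1' x2' x3' : X → ℂ} (hk : Snd kap kap')
    (h1 : Snd x1 x1') (h2 : Snd x2 x2') (h3 : Snd x3 x3') :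
    RL (bigR AD.nat kap x1 x2 x3) (bigR (fun n => (n : X → ℂ)) kap' x1' x2' x3') := by
  have hz := Snd.nat 0
  exact RL.fac hz (h3.mul h3) 9 (RL.fac hz (h2.mul h2) 3 (RL.fac hz (h1.mul h1) 2
    (List.Forall₂.cons hk List.Forall₂.nil)))

lemma RL.eqsW {E O : List AD} {E' O' : List (X → ℂ)} (hE : RL E E') (hO : RL O O')
    {kap x1 x2 x3 : AD} {kap' x1' x2' x3' : X → ℂ} (hk : Snd kap kap')
    (h1 : Snd x1 x1') (h2 : Snd x2 x2') (h3 : Snd x3 x3') :
    RL (eqsW AD.nat E O kap x1 x2 x3) (eqsW (fun n => (n : X → ℂ)) E' O' kap' x1' x2' x3') :=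
  RL.padd (RL.bigL hE hO) (RL.pneg (RL.bigR hk h1 h2 h3))

lemma Snd.tp {H : AD} {H' : X → ℂ} (hH : Snd H H') {E O : List AD} {E' O' : List (X → ℂ)}
    (hE : RL E E') (hO : RL O O') {x : AD} {x' : X → ℂ} (hx : Snd x x') :
    Snd (tp AD.nat H E O x) (tp (fun n => (n : X → ℂ)) H' E' O' x') :=
  (Snd.sqs 12 ((Snd.nat 1).add (hH.mul hx))).mul
    ((Snd.evalp (Snd.nat 0) (hx.mul hx) hE).add
      (hx.mul (Snd.evalp (Snd.nat 0) (hx.mul hx) hO)).neg)

lemma Snd.tm {H : AD} {H' : X → ℂ} (hH : Snd H H') {E O : List AD} {E' O' : List (X → ℂ)}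
    (hE : RL E E') (hO : RL O O') {x : AD} {x' : X → ℂ} (hx : Snd x x') :
    Snd (tm AD.nat H E O x) (tm (fun n => (n : X → ℂ)) H' E' O' x') :=
  (Snd.sqs 12 ((Snd.nat 1).add (hH.mul hx).neg)).mul
    ((Snd.evalp (Snd.nat 0) (hx.mul hx) hE).add
      (hx.mul (Snd.evalp (Snd.nat 0) (hx.mul hx) hO)))

lemma Snd.eqv {H : AD} {H' : X → ℂ} (hH : Snd H H') {E O : List AD} {E' O' : List (X → ℂ)}
    (hE : RL E E') (hO : RL O O') {x : AD} {x' : X → ℂ} (hx : Snd x x') :
    Snd (eqv AD.nat H E O x) (eqv (fun n => (n : X → ℂ)) H' E' O' x') :=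
  (Snd.tm hH hE hO hx).add (Snd.tp hH hE hO hx).neg

end rel

section maps
variable {R S : Type*} [CommRing R] [CommRing S] (φ : R →+* S)

lemma map_padd (p : List R) : ∀ q : List R, (padd p q).map φ = padd (p.map φ) (q.map φ) := by
  induction p with
  | nil => intro q; simp [padd]
  | cons a t ih =>
    intro q
    cases q with
    | nil => simp [padd]
    | cons b s => simp [padd, ih]

lemma map_pneg (p : List R) : (pneg p).map φ = pneg (p.map φ) := by
  induction p with
  | nil => simp [pneg]
  | cons a t ih => simp [pneg, ih]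

lemma map_pscale (c : R) (p : List R) : (pscale c p).map φ = pscale (φ c) (p.map φ) := by
  induction p with
  | nil => simp [pscale]
  | cons a t ih => simp [pscale, ih]

lemma map_pmul (z : R) (p q : List R) :
    (pmul z p q).map φ = pmul (φ z) (p.map φ) (q.map φ) := by
  induction p with
  | nil => simp [pmul]
  | cons a t ih => simp [pmul, map_padd, map_pscale, ih]

lemma map_pderAux (p : List R) : ∀ n, (pderAux (fun n => (n : R)) n p).map φ
    = pderAux (fun n => (n : S)) n (p.map φ) := by
  induction p with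
  | nil => intro n; simp [pderAux]
  | cons a t ih => intro n; simp [pderAux, ih]

lemma map_pder (p : List R) : (pder (fun n => (n : R)) p).map φ
    = pder (fun n => (n : S)) (p.map φ) := by
  cases p with
  | nil => simp [pder]
  | cons a t => simp [pder, map_pderAux]

lemma map_evalp (z x : R) (p : List R) : φ (evalp z x p) = evalp (φ z) (φ x) (p.map φ) := by
  induction p with
  | nil => simp [evalp]
  | cons a t ih => simp [evalp, ih]

lemma map_sqs (n : ℕ) : ∀ x : R, φ (sqs n x) = sqs n (φ x) := by
  induction n with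
  | zero => intro x; simp [sqs]
  | succ n ih => intro x; simp [sqs, ih]

lemma map_fac (z y : R) (n : ℕ) : ∀ p : List R,
    (fac z y n p).map φ = fac (φ z) (φ y) n (p.map φ) := by
  induction n with
  | zero => intro p; simp [fac]
  | succ n ih => intro p; simp [fac, ih, map_padd, map_pscale, map_pneg]

lemma map_eqsW (E O : List R) (kap x1 x2 x3 : R) :
    (eqsW (fun n => (n : R)) E O kap x1 x2 x3).map φ
      = eqsW (fun n => (n : S)) (E.map φ) (O.map φ) (φ kap) (φ x1) (φ x2) (φ x3) := by
  simp only [eqsW, bigL, bigR, map_padd, map_pneg, map_pscale, map_pmul, map_pder, map_fac,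
    List.map_cons, List.map_nil, map_natCast, map_mul]

lemma map_tp (H : R) (E O : List R) (x : R) :
    φ (tp (fun n => (n : R)) H E O x) = tp (fun n => (n : S)) (φ H) (E.map φ) (O.map φ) (φ x) := by
  simp only [tp, map_sqs, map_evalp, map_mul, map_add, map_neg, map_natCast]

lemma map_tm (H : R) (E O : List R) (x : R) :
    φ (tm (fun n => (n : R)) H E O x) = tm (fun n => (n : S)) (φ H) (E.map φ) (O.map φ) (φ x) := by
  simp only [tm, map_sqs, map_evalp, map_mul, map_add, map_neg, map_natCast]

lemma map_eqv (H : R) (E O : List R) (x : R) :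
    φ (eqv (fun n => (n : R)) H E O x)
      = eqv (fun n => (n : S)) (φ H) (E.map φ) (O.map φ) (φ x) := by
  simp only [eqv, map_tp, map_tm, map_add, map_neg]

end maps

section poly
open Polynomial
variable {R : Type*} [CommRing R]

/-- The polynomial with the given list of coefficients. -/
noncomputable def toP : List R → R[X]
  | [] => 0
  | a :: p => C a + Polynomial.X * toP p

lemma toP_padd (p : List R) : ∀ q, toP (padd p q) = toP p + toP q := by
  induction p with
  | nil => intro q; simp [padd, toP]
  | cons a t ih =>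
    intro q
    cases q with
    | nil => simp [padd, toP]
    | cons b s => simp only [padd, toP, ih, C_add]; ring

lemma toP_pneg (p : List R) : toP (pneg p) = -toP p := by
  induction p with
  | nil => simp [pneg, toP]
  | cons a t ih => simp only [pneg, toP, ih, C_neg]; ring

lemma toP_pscale (c : R) (p : List R) : toP (pscale c p) = C c * toP p := by
  induction p with
  | nil => simp [pscale, toP]
  | cons a t ih => simp only [pscale, toP, ih, C_mul]; ring

lemma toP_pmul (p q : List R) : toP (pmul 0 p q) = toP p * toP q := by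
  induction p with
  | nil => simp [pmul, toP]
  | cons a t ih => simp only [pmul, toP, toP_padd, toP_pscale, ih, C_0]; ring

lemma toP_pderAux (p : List R) : ∀ n : ℕ, toP (pderAux (fun n => (n : R)) n p)
    = (n : R[X]) * toP p + Polynomial.X * derivative (toP p) := by
  induction p with
  | nil => intro n; simp [pderAux, toP]
  | cons a t ih =>
    intro n
    simp only [pderAux, toP, ih, C_mul, derivative_add, derivative_C, derivative_mul,
      derivative_X]
    push_cast
    simp only [Polynomial.C_eq_natCast]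
    ring

lemma toP_pder (p : List R) : toP (pder (fun n => (n : R)) p) = derivative (toP p) := by
  cases p with
  | nil => simp [pder, toP]
  | cons a t =>
    simp only [pder, toP_pderAux, toP, derivative_add, derivative_C, derivative_mul, derivative_X]
    push_cast
    ring

lemma evalp_eq (x : R) (p : List R) : evalp 0 x p = (toP p).eval x := by
  induction p with
  | nil => simp [evalp, toP]
  | cons a t ih => simp [evalp, toP, ih]

lemma sqs_eq (n : ℕ) : ∀ x : R, sqs n x = x ^ (2 ^ n) := by
  induction n with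
  | zero => intro x; simp [sqs]
  | succ n ih => intro x; rw [sqs, ih, ← sq, ← pow_mul, pow_succ' 2 n]

lemma toP_fac (y : R) (n : ℕ) : ∀ p : List R,
    toP (fac 0 y n p) = (C y - Polynomial.X) ^ n * toP p := by
  induction n with
  | zero => intro p; simp [fac]
  | succ n ih =>
    intro p
    rw [fac, ih, toP_padd, toP_pscale, toP_pneg]
    simp only [toP, C_0]
    ring

end poly

end Pool.Agent.N832.CF
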